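import Mathlib

/-!
Transvections of a free group: `T i (u, v)` sends `x_i` to `u⁻¹ x_i v` and fixes the other letters,
for words `u, v` not involving `x_i`.
-/

namespace Helper38.AutF

open scoped commutatorElement

variable {ι : Type*} [DecidableEq ι]

/-- words in the letters of `s` -/
def Sy (s : Set ι) : Subgroup (FreeGroup ι) := Subgroup.closure (FreeGroup.of '' s)

omit [DecidableEq ι] in
theorem Sy_mono {s t : Set ι} (h : s ⊆ t) : Sy s ≤ Sy t :=
  Subgroup.closure_mono (Set.image_mono h)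

omit [DecidableEq ι] in
theorem of_mem_Sy {s : Set ι} {j : ι} (h : j ∈ s) : FreeGroup.of j ∈ Sy s :=
  Subgroup.subset_closure ⟨j, h, rfl⟩

/-- words not involving `i` -/
abbrev Sx (i : ι) : Subgroup (FreeGroup ι) := Sy {i}ᶜ

omit [DecidableEq ι] in
theorem of_mem_Sx {i j : ι} (h : j ≠ i) : FreeGroup.of j ∈ Sx i := of_mem_Sy (by simpa using h)

omit [DecidableEq ι] in
theorem Sy_le_Sx {s : Set ι} {i : ι} (h : i ∉ s) : Sy s ≤ Sx i :=
  Sy_mono (fun j hj => by
    simp only [Set.mem_compl_iff, Set.mem_singleton_iff]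
    rintro rfl
    exact h hj)

/-- The endomorphism `x_i ↦ u⁻¹ x_i v`. -/
def Te (i : ι) (u v : FreeGroup ι) : FreeGroup ι →* FreeGroup ι :=
  FreeGroup.lift (Function.update FreeGroup.of i (u⁻¹ * FreeGroup.of i * v))

theorem Te_self (i : ι) (u v : FreeGroup ι) : Te i u v (FreeGroup.of i) = u⁻¹ * FreeGroup.of i * v := by
  simp [Te]

theorem Te_ne {i j : ι} (h : j ≠ i) (u v : FreeGroup ι) : Te i u v (FreeGroup.of j) = FreeGroup.of j := by
  simp [Te, h]

omit [DecidableEq ι] in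
theorem hom_eq_on_Sy {G : Type*} [Group G] {s : Set ι} (φ ψ : FreeGroup ι →* G)
    (h : ∀ j ∈ s, φ (FreeGroup.of j) = ψ (FreeGroup.of j)) {w : FreeGroup ι} (hw : w ∈ Sy s) :
    φ w = ψ w := by
  have : Set.EqOn φ ψ (Sy s : Set (FreeGroup ι)) := by
    refine MonoidHom.eqOn_closure ?_
    rintro _ ⟨j, hj, rfl⟩
    exact h j hj
  exact this hw

theorem Te_fix (i : ι) (u v : FreeGroup ι) {w : FreeGroup ι} (hw : w ∈ Sx i) : Te i u v w = w := by
  refine hom_eq_on_Sy (Te i u v) (MonoidHom.id _) (fun j hj => ?_) hw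
  rw [Te_ne (by simpa using hj)]
  rfl

theorem Te_comp (i : ι) {u v u' v' : FreeGroup ι} (hu' : u' ∈ Sx i) (hv' : v' ∈ Sx i) :
    (Te i u v).comp (Te i u' v') = Te i (u * u') (v * v') := by
  refine FreeGroup.ext_hom _ _ (fun j => ?_)
  by_cases hj : j = i
  · subst hj
    simp only [MonoidHom.comp_apply, Te_self, map_mul, map_inv, Te_fix j u v hu', Te_fix j u v hv',
      mul_inv_rev, mul_assoc]
  · simp only [MonoidHom.comp_apply, Te_ne hj]

theorem Te_one (i : ι) : Te i (1 : FreeGroup ι) 1 = MonoidHom.id _ := by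
  refine FreeGroup.ext_hom _ _ (fun j => ?_)
  by_cases hj : j = i
  · subst hj; simp [Te_self]
  · simp [Te_ne hj]

/-- The automorphism `x_i ↦ u⁻¹ x_i v` (`u, v` words without `x_i`), as a homomorphism. -/
def T (i : ι) : (Sx i × Sx i) →* MulAut (FreeGroup ι) where
  toFun p := MonoidHom.toMulEquiv (Te i p.1 p.2) (Te i (p.1 : FreeGroup ι)⁻¹ (p.2 : FreeGroup ι)⁻¹)
    (by rw [Te_comp i p.1.2 p.2.2, inv_mul_cancel, inv_mul_cancel, Te_one])
    (by rw [Te_comp i (inv_mem p.1.2) (inv_mem p.2.2), mul_inv_cancel, mul_inv_cancel, Te_one])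
  map_one' := by
    ext x
    simp [Te_one]
  map_mul' p q := by
    ext x
    have := DFunLike.congr_fun (Te_comp i (u := p.1) (v := p.2) q.1.2 q.2.2) x
    simp only [MonoidHom.comp_apply] at this
    simp [MulAut.mul_apply, this]

theorem T_apply (i : ι) (p : Sx i × Sx i) (x : FreeGroup ι) : T i p x = Te i p.1 p.2 x := rfl

theorem T_self (i : ι) (p : Sx i × Sx i) :
    T i p (FreeGroup.of i) = (p.1 : FreeGroup ι)⁻¹ * FreeGroup.of i * p.2 := Te_self _ _ _

theorem T_ne {i j : ι} (h : j ≠ i) (p : Sx i × Sx i) : T i p (FreeGroup.of j) = FreeGroup.of j :=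
  Te_ne h _ _

theorem T_fix (i : ι) (p : Sx i × Sx i) {w : FreeGroup ι} (hw : w ∈ Sx i) : T i p w = w :=
  Te_fix _ _ _ hw

omit [DecidableEq ι] in
theorem aut_ext {σ τ : MulAut (FreeGroup ι)} (h : ∀ j, σ (FreeGroup.of j) = τ (FreeGroup.of j)) :
    σ = τ := by
  have : (σ.toMonoidHom : FreeGroup ι →* FreeGroup ι) = τ.toMonoidHom :=
    FreeGroup.ext_hom _ _ h
  ext x
  exact DFunLike.congr_fun this x

/-- Conjugating a transvection by an automorphism `σ` fixing `x_i` and preserving the words without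
`x_i`. -/
theorem T_conj {i : ι} (σ : MulAut (FreeGroup ι)) (hi : σ (FreeGroup.of i) = FreeGroup.of i)
    (hj : ∀ j, j ≠ i → σ (FreeGroup.of j) ∈ Sx i) (p p' : Sx i × Sx i)
    (h1 : (p'.1 : FreeGroup ι) = σ p.1) (h2 : (p'.2 : FreeGroup ι) = σ p.2) :
    σ * T i p = T i p' * σ := by
  refine aut_ext (fun j => ?_)
  rw [MulAut.mul_apply, MulAut.mul_apply]
  by_cases h : j = i
  · subst h
    rw [T_self, hi, T_self, map_mul, map_mul, map_inv, h1, h2, hi]
  · rw [T_ne h, T_fix _ _ (hj j h)]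

/-- `x_i ↦ x_i r` is a product of two commutators of elements of its centraliser, as soon as there
are two letters `k, l` not involved in it. -/
theorem mem_commutator {i k l : ι} (hki : k ≠ i) (hli : l ≠ i) (hkl : k ≠ l) (r : Sx i)
    (hrk : (r : FreeGroup ι) ∈ Sx k) (hrl : (r : FreeGroup ι) ∈ Sx l) (z : MulAut (FreeGroup ι))
    (hz : z = T i (1, r)) :
    (⟨z, Subgroup.mem_centralizer_singleton_iff.mpr rfl⟩ : Subgroup.centralizer {z}) ∈
      commutator (Subgroup.centralizer {z}) := by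
  set y : FreeGroup ι := FreeGroup.of i * r * (FreeGroup.of i)⁻¹ with hy
  have hyk : y ∈ Sx k := mul_mem (mul_mem (of_mem_Sx hki.symm) hrk) (inv_mem (of_mem_Sx hki.symm))
  have hyl : y ∈ Sx l := mul_mem (mul_mem (of_mem_Sx hli.symm) hrl) (inv_mem (of_mem_Sx hli.symm))
  have hzi : z (FreeGroup.of i) = FreeGroup.of i * r := by
    rw [hz, T_self]; simp
  have hzne : ∀ j, j ≠ i → z (FreeGroup.of j) = FreeGroup.of j := by
    intro j hj; rw [hz, T_ne hj]
  have hzr : z r = r := by rw [hz, T_fix _ _ r.2]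
  have hzy : z y = y := by
    rw [hy, map_mul, map_mul, map_inv, hzi, hzr]; group
  set Λ : MulAut (FreeGroup ι) := T i (⟨FreeGroup.of k, of_mem_Sx hki⟩, 1) with hΛ
  set D : MulAut (FreeGroup ι) := T k (1, ⟨y, hyk⟩) with hD
  set A : MulAut (FreeGroup ι) := T k (⟨FreeGroup.of l, of_mem_Sx hkl.symm⟩,
    ⟨FreeGroup.of l, of_mem_Sx hkl.symm⟩) with hA
  set B : MulAut (FreeGroup ι) := T l (1, ⟨y, hyl⟩) with hB
  have cΛ : z * Λ = Λ * z := by
    rw [hz, hΛ, ← map_mul, ← map_mul]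
    congr 1
    ext <;> simp
  have hzk : ∀ j, j ≠ k → z (FreeGroup.of j) ∈ Sx k := by
    intro j hj
    by_cases h : j = i
    · rw [h, hzi]; exact mul_mem (of_mem_Sx hki.symm) hrk
    · rw [hzne j h]; exact of_mem_Sx hj
  have hzl : ∀ j, j ≠ l → z (FreeGroup.of j) ∈ Sx l := by
    intro j hj
    by_cases h : j = i
    · rw [h, hzi]; exact mul_mem (of_mem_Sx hli.symm) hrl
    · rw [hzne j h]; exact of_mem_Sx hj
  have cD : z * D = D * z := T_conj z (hzne k hki) hzk _ _ (by simp) (by simp [hzy])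
  have cA : z * A = A * z := T_conj z (hzne k hki) hzk _ _ (by simp [hzne l hli])
    (by simp [hzne l hli])
  have cB : z * B = B * z := T_conj z (hzne l hli) hzl _ _ (by simp) (by simp [hzy])
  -- the two key identities
  have hΛi : Λ (FreeGroup.of i) = (FreeGroup.of k)⁻¹ * FreeGroup.of i := by
    rw [hΛ, T_self]; simp
  have hΛne : ∀ j, j ≠ i → Λ (FreeGroup.of j) = FreeGroup.of j := by
    intro j hj; rw [hΛ, T_ne hj]
  have hΛr : Λ r = r := by rw [hΛ, T_fix _ _ r.2]
  have hDk : D (FreeGroup.of k) = FreeGroup.of k * y := by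
    rw [hD, T_self]; simp
  have hDne : ∀ j, j ≠ k → D (FreeGroup.of j) = FreeGroup.of j := by
    intro j hj; rw [hD, T_ne hj]
  set E : MulAut (FreeGroup ι) := T k (⟨y, hyk⟩⁻¹, 1) with hE
  have hEk : E (FreeGroup.of k) = y * FreeGroup.of k := by
    rw [hE, T_self]; simp
  have hEne : ∀ j, j ≠ k → E (FreeGroup.of j) = FreeGroup.of j := by
    intro j hj; rw [hE, T_ne hj]
  have e1 : Λ * D = z * E * Λ := by
    refine aut_ext (fun j => ?_)
    simp only [MulAut.mul_apply]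
    by_cases hji : j = i
    · subst hji
      rw [hDne j hki.symm, hΛi, map_mul, map_inv, hEk, hEne j hki.symm, map_mul, map_inv,
        map_mul, hzne k hki, hzi, hzy, hy]
      group
    · by_cases hjk : j = k
      · subst hjk
        have hΛy : Λ y = (FreeGroup.of j)⁻¹ * y * FreeGroup.of j := by
          rw [hy, map_mul, map_mul, map_inv, hΛi, hΛr]
          group
        rw [hDk, hΛne j hji, map_mul Λ, hΛne j hji, hEk, map_mul z, hzne j hji, hzy, hΛy]
        group
      · rw [hDne j hjk, hΛne j hji, hEne j hjk, hzne j hji]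
  have e2 : B * A = A * T k (⟨y, hyk⟩, ⟨y, hyk⟩) * B := by
    have hBk : ∀ j, j ≠ k → B (FreeGroup.of j) ∈ Sx k := by
      intro j hj
      by_cases h : j = l
      · rw [h, hB, T_self]
        exact mul_mem (mul_mem (by simp) (of_mem_Sx hkl.symm)) hyk
      · rw [hB, T_ne h]; exact of_mem_Sx hj
    rw [hA, ← map_mul]
    refine T_conj B (by rw [hB, T_ne hkl]) hBk _ _ ?_ ?_
    · simp [hB, T_self]
    · simp [hB, T_self]
  have e3 : D⁻¹ * T k (⟨y, hyk⟩, ⟨y, hyk⟩) = E⁻¹ := by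
    rw [hD, hE, ← map_inv, ← map_inv, ← map_mul]
    congr 1
    ext <;> simp
  have fin : z = (Λ * D * Λ⁻¹ * D⁻¹) * (A⁻¹ * B * (A⁻¹)⁻¹ * B⁻¹) := by
    have f1 : Λ * D * Λ⁻¹ = z * E := by rw [e1]; group
    have f2 : A⁻¹ * B * (A⁻¹)⁻¹ * B⁻¹ = T k (⟨y, hyk⟩, ⟨y, hyk⟩) := by
      rw [inv_inv, mul_assoc A⁻¹ B A, e2]; group
    rw [f1, f2, mul_assoc (z * _) D⁻¹, e3]
    group
  have mC : ∀ {g : MulAut (FreeGroup ι)}, z * g = g * z → g ∈ Subgroup.centralizer {z} := by
    intro g hg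
    rw [Subgroup.mem_centralizer_singleton_iff]
    exact hg.symm
  have mΛ := mC cΛ
  have mD := mC cD
  have mA := mC cA
  have mB := mC cB
  have e : (⟨z, Subgroup.mem_centralizer_singleton_iff.mpr rfl⟩ : Subgroup.centralizer {z}) =
      ⁅(⟨Λ, mΛ⟩ : Subgroup.centralizer {z}), ⟨D, mD⟩⁆ *
        ⁅(⟨A, mA⟩ : Subgroup.centralizer {z})⁻¹, ⟨B, mB⟩⁆ := by
    apply Subtype.ext
    simp only [commutatorElement_def, Subgroup.coe_mul, Subgroup.coe_inv]
    exact fin
  rw [e]
  exact mul_mem (Subgroup.commutator_mem_commutator (Subgroup.mem_top _) (Subgroup.mem_top _))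
    (Subgroup.commutator_mem_commutator (Subgroup.mem_top _) (Subgroup.mem_top _))

end Helper38.AutF
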