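import Mathlib

/-!
The core vanishing lemma: a unipotent representation of a finite-index normal subgroup `F` of a
group `Γ`, invariant under two twist endomorphisms with a common twisting word `w`, kills `w`.
-/

namespace Helper38.AutF

open Matrix

theorem core_sum {Q : Type*} [Group Q] [Fintype Q] (Ψ l l' : Q → ℚ) (t t' : Q)
    (h1 : ∀ g, l (g * t) = l g + Ψ g) (h2 : ∀ g, l' (g * t) = l' g)
    (h3 : ∀ g, l' (g * t') = l' g + Ψ g) : ∀ g, Ψ g = 0 := by
  have e1 : ∑ g, l (g * t) * l' (g * t) = ∑ g, l g * l' g :=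
    Equiv.sum_comp (Equiv.mulRight t) (fun g => l g * l' g)
  have e2 : ∑ g, l' (g * t') ^ 2 = ∑ g, l' g ^ 2 :=
    Equiv.sum_comp (Equiv.mulRight t') (fun g => l' g ^ 2)
  simp only [h1, h2, h3] at e1 e2
  have e3 : ∑ g, Ψ g * l' g = 0 := by
    have : ∑ g, (l g + Ψ g) * l' g = ∑ g, l g * l' g + ∑ g, Ψ g * l' g := by
      rw [← Finset.sum_add_distrib]
      exact Finset.sum_congr rfl fun g _ => by ring
    linarith
  have e4 : ∑ g, Ψ g ^ 2 = 0 := by
    have : ∑ g, (l' g + Ψ g) ^ 2 = ∑ g, l' g ^ 2 + 2 * ∑ g, Ψ g * l' g + ∑ g, Ψ g ^ 2 := by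
      rw [Finset.mul_sum, ← Finset.sum_add_distrib, ← Finset.sum_add_distrib]
      exact Finset.sum_congr rfl fun g _ => by ring
    linarith
  intro g
  have := (Finset.sum_eq_zero_iff_of_nonneg (fun g _ => sq_nonneg (Ψ g))).1 e4 g (Finset.mem_univ g)
  exact pow_eq_zero_iff (two_ne_zero) |>.1 this

section Filt

variable {m : ℕ}

/-- `M` is killed by all two-sided products of total length at least `k` from `S`. -/
def ZZ (S : Set (Matrix (Fin m) (Fin m) ℚ)) (k : ℕ) : Submodule ℚ (Matrix (Fin m) (Fin m) ℚ) where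
  carrier := {M | ∀ A B : List (Matrix (Fin m) (Fin m) ℚ), (∀ x ∈ A, x ∈ S) → (∀ x ∈ B, x ∈ S) →
    k ≤ A.length + B.length → A.prod * M * B.prod = 0}
  add_mem' := by
    intro M N hM hN A B hA hB hk
    rw [mul_add, add_mul, hM A B hA hB hk, hN A B hA hB hk, add_zero]
  zero_mem' := by
    intro A B _ _ _
    simp
  smul_mem' := by
    intro c M hM A B hA hB hk
    rw [Matrix.mul_smul, Matrix.smul_mul, hM A B hA hB hk, smul_zero]

variable {S : Set (Matrix (Fin m) (Fin m) ℚ)}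

theorem ZZ_zero {M : Matrix (Fin m) (Fin m) ℚ} (h : M ∈ ZZ S 0) : M = 0 := by
  have := h [] [] (by simp) (by simp) (by simp)
  simpa using this

theorem ZZ_mono {M : Matrix (Fin m) (Fin m) ℚ} {k l : ℕ} (hkl : k ≤ l) (h : M ∈ ZZ S k) :
    M ∈ ZZ S l := by
  intro A B hA hB hk
  exact h A B hA hB (hkl.trans hk)

theorem ZZ_left {M u : Matrix (Fin m) (Fin m) ℚ} {k : ℕ} (hu : u ∈ S) (h : M ∈ ZZ S (k + 1)) :
    u * M ∈ ZZ S k := by
  intro A B hA hB hk
  have := h (A ++ [u]) B (by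
    intro x hx
    rcases List.mem_append.1 hx with hx | hx
    · exact hA x hx
    · rw [List.mem_singleton.1 hx]; exact hu) hB (by simp; omega)
  rw [List.prod_append, List.prod_singleton] at this
  rw [← this]
  simp only [mul_assoc]

theorem ZZ_right {M u : Matrix (Fin m) (Fin m) ℚ} {k : ℕ} (hu : u ∈ S) (h : M ∈ ZZ S (k + 1)) :
    M * u ∈ ZZ S k := by
  intro A B hA hB hk
  have := h A (u :: B) hA (by
    intro x hx
    rcases List.mem_cons.1 hx with hx | hx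
    · rw [hx]; exact hu
    · exact hB x hx) (by simp; omega)
  rw [List.prod_cons] at this
  rw [← this]
  simp only [mul_assoc]

theorem ZZ_left' {M u : Matrix (Fin m) (Fin m) ℚ} {k : ℕ} (hu : u ∈ S) (h : M ∈ ZZ S k) :
    u * M ∈ ZZ S k := ZZ_left hu (ZZ_mono (Nat.le_succ k) h)

theorem ZZ_right' {M u : Matrix (Fin m) (Fin m) ℚ} {k : ℕ} (hu : u ∈ S) (h : M ∈ ZZ S k) :
    M * u ∈ ZZ S k := ZZ_right hu (ZZ_mono (Nat.le_succ k) h)

theorem ZZ_top {K : ℕ} (hK : ∀ L : List (Matrix (Fin m) (Fin m) ℚ), L.length = K →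
    (∀ A ∈ L, A ∈ S) → L.prod = 0) (M : Matrix (Fin m) (Fin m) ℚ) : M ∈ ZZ S (2 * K) := by
  have hK' : ∀ L : List (Matrix (Fin m) (Fin m) ℚ), K ≤ L.length → (∀ A ∈ L, A ∈ S) →
      L.prod = 0 := by
    intro L hL hS
    have h1 : (L.take K).prod = 0 := hK _ (by simp [hL]) (fun A hA => hS A (List.mem_of_mem_take hA))
    rw [← List.take_append_drop K L, List.prod_append, h1, zero_mul]
  intro A B hA hB hk
  rcases le_or_gt K A.length with h | h
  · rw [hK' A h hA]; simp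
  · rw [hK' B (by omega) hB]; simp

end Filt

/-- **Core lemma.** -/
theorem core {Γ : Type*} [Group Γ] {m : ℕ} (F : Subgroup Γ) [hFn : F.Normal] (hFi : F.index ≠ 0)
    (φ : Γ → Matrix (Fin m) (Fin m) ℚ) (hone : φ 1 = 1)
    (hmul : ∀ r ∈ F, ∀ s ∈ F, φ (r * s) = φ r * φ s)
    (K : ℕ) (hK : ∀ L : List (Matrix (Fin m) (Fin m) ℚ), L.length = K →
      (∀ A ∈ L, ∃ r ∈ F, A = φ r - 1) → L.prod = 0)
    (w t t' : Γ) (hw : w ∈ F) (Λ Λ' : Γ →* Γ)
    (h1 : Λ t = w * t) (h2 : Λ' t = t) (h3 : Λ' t' = w * t')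
    (hΛ : ∀ g, Λ g * g⁻¹ ∈ Subgroup.normalClosure {w})
    (hΛ' : ∀ g, Λ' g * g⁻¹ ∈ Subgroup.normalClosure {w})
    (hφ : ∀ r ∈ F, φ (Λ r * r⁻¹) = 1) (hφ' : ∀ r ∈ F, φ (Λ' r * r⁻¹) = 1) :
    φ w = 1 := by
  classical
  set S : Set (Matrix (Fin m) (Fin m) ℚ) := {A | ∃ r ∈ F, A = φ r - 1} with hS
  have hSmem : ∀ r ∈ F, φ r - 1 ∈ S := fun r hr => ⟨r, hr, rfl⟩
  have hinv : ∀ r ∈ F, φ r * φ r⁻¹ = 1 := by
    intro r hr
    rw [← hmul r hr r⁻¹ (F.inv_mem hr), mul_inv_cancel, hone]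
  have hinv' : ∀ r ∈ F, φ r⁻¹ * φ r = 1 := by
    intro r hr
    rw [← hmul r⁻¹ (F.inv_mem hr) r hr, inv_mul_cancel, hone]
  have hNF : Subgroup.normalClosure {w} ≤ F :=
    Subgroup.normalClosure_le_normal (by simpa using hw)
  have hconj : ∀ g, g * w * g⁻¹ ∈ F := fun g => hFn.conj_mem w hw g
  -- stability of the filtration under multiplication by `φ r`
  have hst1 : ∀ k : ℕ, ∀ M ∈ ZZ S k, ∀ r ∈ F, φ r * M ∈ ZZ S k := by
    intro k M hM r hr
    have : φ r * M = (φ r - 1) * M + M := by rw [sub_mul, one_mul, sub_add_cancel]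
    rw [this]
    exact (ZZ S k).add_mem (ZZ_left' (hSmem r hr) hM) hM
  have hst2 : ∀ k : ℕ, ∀ M ∈ ZZ S k, ∀ r ∈ F, M * φ r ∈ ZZ S k := by
    intro k M hM r hr
    have : M * φ r = M * (φ r - 1) + M := by rw [mul_sub, mul_one, sub_add_cancel]
    rw [this]
    exact (ZZ S k).add_mem (ZZ_right' (hSmem r hr) hM) hM
  -- the induction step
  have step : ∀ k : ℕ, (∀ g, φ (g * w * g⁻¹) - 1 ∈ ZZ S (k + 1)) →
      ∀ g, φ (g * w * g⁻¹) - 1 ∈ ZZ S k := by
    intro k hk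
    have hN : ∀ ν ∈ Subgroup.normalClosure {w}, φ ν - 1 ∈ ZZ S (k + 1) := by
      intro ν hν
      unfold Subgroup.normalClosure at hν
      have key : φ ν - 1 ∈ ZZ S (k + 1) ∧ ν ∈ F := by
        induction hν using Subgroup.closure_induction with
        | mem x hx =>
          rw [Group.conjugatesOfSet] at hx
          simp only [Set.mem_singleton_iff, Set.iUnion_iUnion_eq_left] at hx
          replace hx : IsConj w x := hx
          rw [isConj_iff] at hx
          obtain ⟨c, hc⟩ := hx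
          rw [← hc]
          exact ⟨hk c, hconj c⟩
        | one =>
          rw [hone, sub_self]
          exact ⟨(ZZ S (k + 1)).zero_mem, F.one_mem⟩
        | mul x y hx hy hx1 hy1 =>
          refine ⟨?_, F.mul_mem hx1.2 hy1.2⟩
          rw [hmul x hx1.2 y hy1.2]
          have : φ x * φ y - 1 = φ x * (φ y - 1) + (φ x - 1) := by
            rw [mul_sub, mul_one]; abel
          rw [this]
          exact (ZZ S (k + 1)).add_mem (hst1 _ _ hy1.1 _ hx1.2) hx1.1
        | inv x hx hx1 =>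
          refine ⟨?_, F.inv_mem hx1.2⟩
          have : φ x⁻¹ - 1 = - (φ x⁻¹ * (φ x - 1)) := by
            rw [mul_sub, mul_one, hinv' x hx1.2]; abel
          rw [this]
          exact (ZZ S (k + 1)).neg_mem (hst1 _ _ hx1.1 _ (F.inv_mem hx1.2))
      exact key.1
    by_contra hcon
    push Not at hcon
    obtain ⟨g₀, hg₀⟩ := hcon
    obtain ⟨ξ, hξ0, hξ⟩ := Submodule.exists_le_ker_of_notMem hg₀
    have hξz : ∀ M ∈ ZZ S k, ξ M = 0 := fun M hM => by
      have := hξ hM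
      simpa using this
    -- conjugation invariance modulo `ZZ S k`
    have hcinv : ∀ M ∈ ZZ S (k + 1), ∀ r ∈ F, ξ (φ r * M * φ r⁻¹) = ξ M := by
      intro M hM r hr
      have e : φ r * M * φ r⁻¹ = M + ((φ r - 1) * M * φ r⁻¹ + M * (φ r⁻¹ - 1)) := by
        rw [sub_mul, one_mul, sub_mul, mul_sub, mul_one]; abel
      rw [e, map_add, hξz _ ((ZZ S k).add_mem
        (hst2 _ _ (ZZ_left (hSmem r hr) hM) _ (F.inv_mem hr))
        (ZZ_right (hSmem _ (F.inv_mem hr)) hM)), add_zero]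
    -- generic facts for a twist
    have gen : ∀ (Θ : Γ →* Γ), (∀ g, Θ g * g⁻¹ ∈ Subgroup.normalClosure {w}) →
        (∀ r ∈ F, φ (Θ r * r⁻¹) = 1) → ∀ g, ∀ r ∈ F,
          ξ (φ (Θ (r * g) * (r * g)⁻¹) - 1) = ξ (φ (Θ g * g⁻¹) - 1) := by
      intro Θ hΘ hΘφ g r hr
      have e1 : Θ (r * g) * (r * g)⁻¹ = (Θ r * r⁻¹) * (r * (Θ g * g⁻¹) * r⁻¹) := by
        rw [map_mul]; group
      have hg1 : Θ g * g⁻¹ ∈ F := hNF (hΘ g)
      rw [e1, hmul _ (hNF (hΘ r)) _ (hFn.conj_mem _ hg1 r), hΘφ r hr, one_mul,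
        hmul _ (F.mul_mem hr hg1) _ (F.inv_mem hr), hmul _ hr _ hg1]
      have e2 : φ r * φ (Θ g * g⁻¹) * φ r⁻¹ - 1 = φ r * (φ (Θ g * g⁻¹) - 1) * φ r⁻¹ := by
        rw [mul_sub, mul_one, sub_mul, hinv r hr]
      rw [e2]
      exact hcinv _ (hN _ (hΘ g)) r hr
    have genmul : ∀ (Θ : Γ →* Γ), (∀ g, Θ g * g⁻¹ ∈ Subgroup.normalClosure {w}) → ∀ s,
        Θ s = w * s → ∀ g, ξ (φ (Θ (g * s) * (g * s)⁻¹) - 1) =
          ξ (φ (Θ g * g⁻¹) - 1) + ξ (φ (g * w * g⁻¹) - 1) := by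
      intro Θ hΘ s hs g
      have e1 : Θ (g * s) * (g * s)⁻¹ = (Θ g * g⁻¹) * (g * w * g⁻¹) := by
        rw [map_mul, hs]; group
      rw [e1, hmul _ (hNF (hΘ g)) _ (hconj g)]
      have e2 : φ (Θ g * g⁻¹) * φ (g * w * g⁻¹) - 1 = (φ (Θ g * g⁻¹) - 1) * (φ (g * w * g⁻¹) - 1)
          + ((φ (Θ g * g⁻¹) - 1) + (φ (g * w * g⁻¹) - 1)) := by
        rw [sub_mul, mul_sub, mul_one, one_mul]; abel
      rw [e2, map_add, hξz _ (ZZ_left (hSmem _ (hNF (hΘ g))) (hk g)), zero_add, map_add]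
    set Ψ : Γ → ℚ := fun g => ξ (φ (g * w * g⁻¹) - 1) with hΨ
    set l : Γ → ℚ := fun g => ξ (φ (Λ g * g⁻¹) - 1) with hl
    set l' : Γ → ℚ := fun g => ξ (φ (Λ' g * g⁻¹) - 1) with hl'
    have hΨinv : ∀ g, ∀ r ∈ F, Ψ (r * g) = Ψ g := by
      intro g r hr
      have e1 : (r * g) * w * (r * g)⁻¹ = r * (g * w * g⁻¹) * r⁻¹ := by group
      simp only [hΨ]
      rw [e1, hmul _ (F.mul_mem hr (hconj g)) _ (F.inv_mem hr), hmul _ hr _ (hconj g)]
      have e2 : φ r * φ (g * w * g⁻¹) * φ r⁻¹ - 1 = φ r * (φ (g * w * g⁻¹) - 1) * φ r⁻¹ := by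
        rw [mul_sub, mul_one, sub_mul, hinv r hr]
      rw [e2]
      exact hcinv _ (hk g) r hr
    have hlinv : ∀ g, ∀ r ∈ F, l (r * g) = l g := fun g r hr => gen Λ hΛ hφ g r hr
    have hlinv' : ∀ g, ∀ r ∈ F, l' (r * g) = l' g := fun g r hr => gen Λ' hΛ' hφ' g r hr
    -- passage to the quotient
    have hdesc : ∀ (p : Γ → ℚ), (∀ g, ∀ r ∈ F, p (r * g) = p g) → ∀ g,
        p (Quotient.out (QuotientGroup.mk g : Γ ⧸ F)) = p g := by
      intro p hp g
      obtain ⟨h, hh⟩ := QuotientGroup.mk_out_eq_mul F g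
      rw [hh]
      have : g * (h : Γ) = (g * h * g⁻¹) * g := by group
      rw [this]
      exact hp g _ (hFn.conj_mem _ h.2 g)
    have : F.FiniteIndex := ⟨hFi⟩
    have : Fintype (Γ ⧸ F) := Subgroup.fintypeQuotientOfFiniteIndex
    have hout : ∀ (p : Γ → ℚ), (∀ g, ∀ r ∈ F, p (r * g) = p g) → ∀ (q : Γ ⧸ F) (s : Γ),
        p (Quotient.out (q * (QuotientGroup.mk s : Γ ⧸ F))) = p (Quotient.out q * s) := by
      intro p hp q s
      have : q * (QuotientGroup.mk s : Γ ⧸ F) = QuotientGroup.mk (Quotient.out q * s) := by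
        rw [QuotientGroup.mk_mul]
        congr 1
        exact (QuotientGroup.out_eq' q).symm
      rw [this, hdesc p hp]
    have key := core_sum (Q := Γ ⧸ F) (fun q => Ψ q.out) (fun q => l q.out) (fun q => l' q.out)
      (QuotientGroup.mk t) (QuotientGroup.mk t')
      (by
        intro q
        simp only [hout l hlinv]
        exact genmul Λ hΛ t h1 _)
      (by
        intro q
        simp only [hout l' hlinv']
        simp only [hl']
        congr 3
        rw [map_mul, h2]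
        group)
      (by
        intro q
        simp only [hout l' hlinv']
        exact genmul Λ' hΛ' t' h3 _)
    have := key (QuotientGroup.mk g₀)
    simp only [hdesc Ψ hΨinv] at this
    exact hξ0 this
  -- descend
  have all : ∀ k : ℕ, ∀ g, φ (g * w * g⁻¹) - 1 ∈ ZZ S (2 * K - k) := by
    intro k
    induction k with
    | zero =>
      intro g
      exact ZZ_top (fun L hL hLS => hK L hL hLS) _
    | succ k ih =>
      rcases Nat.lt_or_ge k (2 * K) with h | h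
      · have e : 2 * K - k = (2 * K - (k + 1)) + 1 := by omega
        rw [e] at ih
        exact step _ ih
      · have e : 2 * K - (k + 1) = 2 * K - k := by omega
        rw [e]; exact ih
  have := ZZ_zero (by simpa using all (2 * K) 1)
  exact sub_eq_zero.1 this

end Helper38.AutF
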