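import Mathlib
import Pool.Agent.Helper38.AutF.Core
import Pool.Agent.Helper38.AutF.Autos
import Pool.Agent.Helper42.AutF.Kolchin
import Pool.Agent.Helper42.AutF.Transfer
import Pool.Agent.Helper68.AutF.M1
import Pool.Agent.Helper68.AutF.M6

/-!
Unipotency of the image of a generalised transvection, and the good pair argument.
-/

namespace Helper38.AutF

open Matrix

/-- images of `x_i ↦ x_i r` are unipotent when `f` is trivial modulo 3 and two letters are spare -/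
theorem unip {ι : Type*} [DecidableEq ι] (H : Subgroup (MulAut (FreeGroup ι))) (hH : H.index ≠ 0)
    {m : ℕ} (f : H →* GL (Fin m) ℤ)
    (hmod : ∀ h : H, ∃ B : Matrix (Fin m) (Fin m) ℤ, (f h : Matrix (Fin m) (Fin m) ℤ) = 1 + (3 : ℤ) • B)
    {i k l : ι} (hki : k ≠ i) (hli : l ≠ i) (hkl : k ≠ l) (r : Sx i)
    (hrk : (r : FreeGroup ι) ∈ Sx k) (hrl : (r : FreeGroup ι) ∈ Sx l) (h : T i (1, r) ∈ H) :
    IsNilpotent ((f ⟨T i (1, r), h⟩ : Matrix (Fin m) (Fin m) ℤ) - 1) := by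
  obtain ⟨e, he0, he, hroot⟩ := Pool.Agent.Helper42.AutF.M5 H hH f (T i (1, r))
    (mem_commutator hki hli hkl r hrk hrl _ rfl)
  obtain ⟨B, hB⟩ := hmod ⟨T i (1, r), h⟩
  refine Pool.Agent.Helper68.AutF.M6 _ B hB (fun μ hμ => ?_)
  have h1 : f ⟨T i (1, r) ^ e, he⟩ = f ⟨T i (1, r), h⟩ ^ e :=
    map_pow f (⟨T i (1, r), h⟩ : H) e
  have h2 := hroot (μ ^ e) (by
    rw [← Matrix.mem_spectrum_iff_isRoot_charpoly] at hμ ⊢
    rw [h1, Units.val_pow_eq_pow_val, Matrix.map_pow]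
    exact spectrum.pow_mem_pow _ e hμ)
  obtain ⟨k, hk, hk1⟩ := h2
  exact ⟨e * k, Nat.mul_pos he0 hk, by rw [pow_mul]; exact hk1⟩

theorem map_mem_Sy {ι : Type*} (S : Set ι) (r : FreeGroup S) :
    FreeGroup.map Subtype.val r ∈ Sy S := by
  induction r using FreeGroup.induction_on with
  | C1 => rw [map_one]; exact one_mem _
  | of x => rw [FreeGroup.map.of]; exact of_mem_Sy x.2
  | inv_of x hx => rw [map_inv]; exact inv_mem hx
  | mul x y hx hy => rw [map_mul]; exact mul_mem hx hy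

theorem exists_lift {ι : Type*} {S Y : Set ι} (hYS : Y ⊆ S) {w : FreeGroup ι} (hw : w ∈ Sy Y) :
    ∃ w' ∈ Sy {j : S | (j : ι) ∈ Y}, FreeGroup.map Subtype.val w' = w := by
  have : Subgroup.map (FreeGroup.map (Subtype.val : S → ι)) (Sy {j : S | (j : ι) ∈ Y}) = Sy Y := by
    unfold Sy
    rw [MonoidHom.map_closure]
    congr 1
    ext x
    simp only [Set.mem_image, Set.mem_ofPred_eq, exists_exists_and_eq_and, FreeGroup.map.of]
    constructor
    · rintro ⟨⟨j, hj⟩, hjY, rfl⟩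
      exact ⟨j, hjY, rfl⟩
    · rintro ⟨j, hjY, rfl⟩
      exact ⟨⟨j, hYS hjY⟩, hjY, rfl⟩
  rw [← this] at hw
  exact hw

/-- The twist endomorphism `x_t ↦ w x_t`. -/
def Lam {α : Type*} [DecidableEq α] (t : α) (w : FreeGroup α) : FreeGroup α →* FreeGroup α :=
  FreeGroup.lift (Function.update FreeGroup.of t (w * FreeGroup.of t))

theorem Lam_self {α : Type*} [DecidableEq α] (t : α) (w : FreeGroup α) :
    Lam t w (FreeGroup.of t) = w * FreeGroup.of t := by simp [Lam]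

theorem Lam_ne {α : Type*} [DecidableEq α] {t a : α} (h : a ≠ t) (w : FreeGroup α) :
    Lam t w (FreeGroup.of a) = FreeGroup.of a := by simp [Lam, h]

theorem Lam_mem {α : Type*} [DecidableEq α] (t : α) (w g : FreeGroup α) :
    Lam t w g * g⁻¹ ∈ Subgroup.normalClosure {w} := by
  have h : (QuotientGroup.mk' (Subgroup.normalClosure {w})).comp (Lam t w) =
      QuotientGroup.mk' (Subgroup.normalClosure {w}) := by
    refine FreeGroup.ext_hom _ _ (fun a => ?_)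
    by_cases ha : a = t
    · subst ha
      rw [MonoidHom.comp_apply, Lam_self, map_mul]
      have : QuotientGroup.mk' (Subgroup.normalClosure {w}) w = 1 := by
        rw [QuotientGroup.mk'_apply, QuotientGroup.eq_one_iff]
        exact Subgroup.subset_normalClosure rfl
      rw [this, one_mul]
    · rw [MonoidHom.comp_apply, Lam_ne ha]
  have h2 := DFunLike.congr_fun h g
  rw [MonoidHom.comp_apply] at h2
  rw [← QuotientGroup.eq_one_iff, ← QuotientGroup.mk'_apply, map_mul, map_inv, h2, mul_inv_cancel]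

/-- **Good pairs kill.** -/
theorem good_pair {ι : Type*} [DecidableEq ι] (H : Subgroup (MulAut (FreeGroup ι))) [hHn : H.Normal]
    (hH : H.index ≠ 0) {m : ℕ} (f : H →* GL (Fin m) ℤ) (Y : Set ι) (i t t' : ι) (hiY : i ∉ Y)
    (hit : i ≠ t) (hit' : i ≠ t') (htt' : t ≠ t') (htY : t ∉ Y) (ht'Y : t' ∉ Y)
    (hun : ∀ r : Sx i, (r : FreeGroup ι) ∈ Sy (Y ∪ {t, t'}) → ∀ h : T i (1, r) ∈ H,
      IsNilpotent ((f ⟨T i (1, r), h⟩ : Matrix (Fin m) (Fin m) ℤ) - 1))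
    (w₀ : FreeGroup ι) (hw₀ : w₀ ∈ Sy Y)
    (hM : T t (⟨w₀⁻¹, inv_mem (Sy_le_Sx htY hw₀)⟩, 1) ∈ H)
    (hM' : T t' (⟨w₀⁻¹, inv_mem (Sy_le_Sx ht'Y hw₀)⟩, 1) ∈ H)
    (hw : T i (1, ⟨w₀, Sy_le_Sx hiY hw₀⟩) ∈ H)
    (hc : ∀ r : Sx i, (r : FreeGroup ι) ∈ Sy (Y ∪ {t, t'}) → ∀ h : T i (1, r) ∈ H,
      f ⟨T i (1, r), h⟩ * f ⟨_, hM⟩ = f ⟨_, hM⟩ * f ⟨T i (1, r), h⟩)
    (hc' : ∀ r : Sx i, (r : FreeGroup ι) ∈ Sy (Y ∪ {t, t'}) → ∀ h : T i (1, r) ∈ H,
      f ⟨T i (1, r), h⟩ * f ⟨_, hM'⟩ = f ⟨_, hM'⟩ * f ⟨T i (1, r), h⟩) :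
    f ⟨_, hw⟩ = 1 := by
  classical
  set S : Set ι := Y ∪ {t, t'} with hS
  have hYS : Y ⊆ S := Set.subset_union_left
  have htS : t ∈ S := by simp [hS]
  have ht'S : t' ∈ S := by simp [hS]
  have hiS : i ∉ S := by
    simp only [hS, Set.mem_union, Set.mem_insert_iff, Set.mem_singleton_iff]
    tauto
  obtain ⟨w, hwY, hww₀⟩ := exists_lift hYS hw₀
  set e : FreeGroup S →* FreeGroup ι := FreeGroup.map Subtype.val with he
  have heS : ∀ r, e r ∈ Sy S := map_mem_Sy S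
  have hei : ∀ r, e r ∈ Sx i := fun r => Sy_le_Sx hiS (heS r)
  -- the hom `r ↦ (x_i ↦ x_i r)`
  set R : FreeGroup S →* MulAut (FreeGroup ι) :=
    (T i).comp ((MonoidHom.inr (Sx i) (Sx i)).comp (e.codRestrict (Sx i) hei)) with hR
  have hRr : ∀ r, R r = T i (1, ⟨e r, hei r⟩) := fun r => rfl
  have hwv : w ∈ Sy {j : S | (j : ι) ∈ Y} := hwY
  set τ : S := ⟨t, htS⟩ with hτ
  set τ' : S := ⟨t', ht'S⟩ with hτ'
  -- the twisting automorphisms act on words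
  have gen : ∀ (s : ι) (hsY : s ∉ Y) (his : i ≠ s) (hsS : s ∈ S)
      (hMs : T s (⟨w₀⁻¹, inv_mem (Sy_le_Sx hsY hw₀)⟩, 1) ∈ H)
      (_ : ∀ r : Sx i, (r : FreeGroup ι) ∈ Sy S → ∀ h : T i (1, r) ∈ H,
        f ⟨T i (1, r), h⟩ * f ⟨_, hMs⟩ = f ⟨_, hMs⟩ * f ⟨T i (1, r), h⟩) (r : FreeGroup S)
      (hr : R r ∈ H) (hr2 : R (Lam (⟨s, hsS⟩ : S) w r) ∈ H),
      f ⟨R (Lam (⟨s, hsS⟩ : S) w r), hr2⟩ = f ⟨R r, hr⟩ := by
    intro s hsY his hsS hMs hcs r hr hr2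
    set M := T s (⟨w₀⁻¹, inv_mem (Sy_le_Sx hsY hw₀)⟩, 1) with hMdef
    have hMs' : M (FreeGroup.of s) = w₀ * FreeGroup.of s := by rw [hMdef, T_self]; simp
    have hMne : ∀ j, j ≠ s → M (FreeGroup.of j) = FreeGroup.of j := by
      intro j hj; rw [hMdef, T_ne hj]
    have hMe : ∀ r, M (e r) = e (Lam (⟨s, hsS⟩ : S) w r) := by
      intro r
      have : (M.toMonoidHom : FreeGroup ι →* FreeGroup ι).comp e = e.comp (Lam (⟨s, hsS⟩ : S) w) := by
        refine FreeGroup.ext_hom _ _ (fun a => ?_)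
        rw [MonoidHom.comp_apply, MonoidHom.comp_apply, he, FreeGroup.map.of]
        change M (FreeGroup.of (a : ι)) = _
        by_cases ha : a = (⟨s, hsS⟩ : S)
        · subst ha
          rw [Lam_self, map_mul, FreeGroup.map.of, hww₀]
          exact hMs'
        · rw [Lam_ne ha, FreeGroup.map.of]
          exact hMne _ (fun hh => ha (Subtype.ext hh))
      exact DFunLike.congr_fun this r
    have hconj : M * R r = R (Lam (⟨s, hsS⟩ : S) w r) * M := by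
      rw [hRr, hRr]
      refine T_conj M (hMne i his) ?_ _ _ (by simp) (by simp [hMe])
      intro j hj
      by_cases hjs : j = s
      · rw [hjs, hMs']
        exact mul_mem (Sy_le_Sx hiY hw₀) (of_mem_Sx his.symm)
      · rw [hMne j hjs]; exact of_mem_Sx hj
    have hconj' : (⟨M, hMs⟩ : H) * ⟨R r, hr⟩ = ⟨R (Lam (⟨s, hsS⟩ : S) w r), hr2⟩ * ⟨M, hMs⟩ :=
      Subtype.ext hconj
    have h3 := congrArg f hconj'
    rw [map_mul, map_mul] at h3
    have h4 := hcs ⟨e r, hei r⟩ (heS r) hr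
    have h5 : f ⟨R r, hr⟩ * f ⟨M, hMs⟩ = f ⟨M, hMs⟩ * f ⟨R r, hr⟩ := h4
    rw [← h5] at h3
    exact (mul_right_cancel h3).symm
  -- the normal subgroup of the free group
  set F : Subgroup (FreeGroup S) := H.comap R with hF
  have hFn : F.Normal := hHn.comap R
  have hFi : F.index ≠ 0 := by
    rw [hF, Subgroup.index_comap]
    have : H.FiniteIndex := ⟨hH⟩
    have : H.IsFiniteRelIndex R.range := Subgroup.isFiniteRelIndex_of_finiteIndex
    exact Subgroup.relIndex_ne_zero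
  have hwF : w ∈ F := by
    change R w ∈ H
    rw [hRr]
    convert hw
  have hLamF : ∀ (a : S) (g : FreeGroup S), g ∈ F → Lam a w g ∈ F := by
    intro a g hg
    have h1 : Lam a w g * g⁻¹ ∈ F :=
      Subgroup.normalClosure_le_normal (by simpa using hwF) (Lam_mem a w g)
    have : Lam a w g = Lam a w g * g⁻¹ * g := by group
    rw [this]
    exact F.mul_mem h1 hg
  -- the rational representation
  set ψ : F →* GL (Fin m) ℚ := (Matrix.GeneralLinearGroup.map (Int.castRingHom ℚ)).comp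
    (f.comp ((R.comp F.subtype).codRestrict H (fun r => r.2))) with hψ
  have hψr : ∀ r (hr : r ∈ F), ((ψ ⟨r, hr⟩ : GL (Fin m) ℚ) : Matrix (Fin m) (Fin m) ℚ) =
      ((f ⟨R r, hr⟩ : GL (Fin m) ℤ) : Matrix (Fin m) (Fin m) ℤ).map (Int.castRingHom ℚ) :=
    fun r hr => rfl
  have hψu : ∀ u ∈ ψ.range, IsNilpotent ((u : Matrix (Fin m) (Fin m) ℚ) - 1) := by
    rintro _ ⟨⟨r, hr⟩, rfl⟩
    have h1 := hun ⟨e r, hei r⟩ (heS r) hr
    have h2 := h1.map ((Int.castRingHom ℚ).mapMatrix : Matrix (Fin m) (Fin m) ℤ →+* _)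
    rw [map_sub, map_one] at h2
    rw [hψr r hr]
    exact h2
  obtain ⟨K, hK⟩ := Pool.Agent.Helper42.AutF.M2 ψ.range hψu
  set φ : FreeGroup S → Matrix (Fin m) (Fin m) ℚ := fun r =>
    if hr : r ∈ F then ((ψ ⟨r, hr⟩ : GL (Fin m) ℚ) : Matrix (Fin m) (Fin m) ℚ) else 1 with hφ
  have hφr : ∀ r (hr : r ∈ F), φ r = ((ψ ⟨r, hr⟩ : GL (Fin m) ℚ) : Matrix (Fin m) (Fin m) ℚ) := by
    intro r hr
    simp only [hφ, dif_pos hr]
  have hφmul : ∀ r ∈ F, ∀ s ∈ F, φ (r * s) = φ r * φ s := by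
    intro r hr s hs
    rw [hφr _ (F.mul_mem hr hs), hφr r hr, hφr s hs, ← Units.val_mul, ← map_mul]
    rfl
  have hφLam : ∀ (a : S), (∀ r (hr : R r ∈ H) (hr2 : R (Lam a w r) ∈ H),
      f ⟨R (Lam a w r), hr2⟩ = f ⟨R r, hr⟩) → ∀ r ∈ F, φ (Lam a w r * r⁻¹) = 1 := by
    intro a ha r hr
    have h1 := hLamF a r hr
    rw [hφmul _ h1 _ (F.inv_mem hr)]
    have h2 : φ (Lam a w r) = φ r := by
      rw [hφr _ h1, hφr _ hr, hψr, hψr, ha r hr h1]
    rw [h2, ← hφmul r hr _ (F.inv_mem hr), mul_inv_cancel, hφr 1 F.one_mem]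
    have : (⟨1, F.one_mem⟩ : F) = 1 := rfl
    rw [this, map_one, Units.val_one]
  have hττ' : τ ≠ τ' := fun hh => htt' (congrArg Subtype.val hh)
  have key := core F hFi φ
    (by
      rw [hφr 1 F.one_mem]
      have : (⟨1, F.one_mem⟩ : F) = 1 := rfl
      rw [this, map_one, Units.val_one])
    hφmul K
    (by
      intro L hL hLS
      refine hK L hL (fun A hA => ?_)
      obtain ⟨r, hr, hAr⟩ := hLS A hA
      exact ⟨ψ ⟨r, hr⟩, ⟨⟨r, hr⟩, rfl⟩, by rw [hAr, hφr r hr]⟩)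
    w (FreeGroup.of τ) (FreeGroup.of τ') hwF (Lam τ w) (Lam τ' w)
    (Lam_self _ _) (Lam_ne hττ' _) (Lam_self _ _) (Lam_mem _ _) (Lam_mem _ _)
    (hφLam τ (gen t htY hit htS hM hc)) (hφLam τ' (gen t' ht'Y hit' ht'S hM' hc'))
  rw [hφr w hwF, hψr] at key
  have hfin : ((f ⟨R w, hwF⟩ : GL (Fin m) ℤ) : Matrix (Fin m) (Fin m) ℤ) = 1 := by
    have hinj : Function.Injective (fun A : Matrix (Fin m) (Fin m) ℤ => A.map (Int.castRingHom ℚ)) :=
      Matrix.map_injective (Int.cast_injective)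
    apply hinj
    change _ = (1 : Matrix (Fin m) (Fin m) ℤ).map (Int.castRingHom ℚ)
    rw [Matrix.map_one _ (map_zero _) (map_one _)]
    exact key
  have hfin' : f ⟨R w, hwF⟩ = 1 := Units.ext hfin
  have hRw : R w = T i (1, ⟨w₀, Sy_le_Sx hiY hw₀⟩) := by
    rw [hRr]
    congr 3
  have : (⟨R w, hwF⟩ : H) = ⟨_, hw⟩ := Subtype.ext hRw
  rw [← this]
  exact hfin'

end Helper38.AutF
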