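import Mathlib
import Pool.Agent.Helper38.AutF.GoodPair

/-!
Assembly: for `4 m ≤ n` every representation `H → GL(m, ℤ)` of a finite-index subgroup of
`Aut(F_n)` kills a power of every (generalised) transvection.
-/

namespace Helper38.AutF

open Matrix

/-- Two transvections based at different letters, whose words avoid both letters, commute. -/
theorem T_comm {ι : Type*} [DecidableEq ι] {i s : ι} (his : i ≠ s) (p : Sx i × Sx i)
    (p' : Sx s × Sx s) (h1 : (p.1 : FreeGroup ι) ∈ Sx s) (h2 : (p.2 : FreeGroup ι) ∈ Sx s)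
    (h3 : (p'.1 : FreeGroup ι) ∈ Sx i) (h4 : (p'.2 : FreeGroup ι) ∈ Sx i) :
    T s p' * T i p = T i p * T s p' := by
  refine T_conj _ (T_ne his _) ?_ _ _ (T_fix _ _ h1).symm (T_fix _ _ h2).symm
  intro j hj
  by_cases hjs : j = s
  · rw [hjs, T_self]
    exact mul_mem (mul_mem (inv_mem h3) (of_mem_Sx his.symm)) h4
  · rw [T_ne hjs]; exact of_mem_Sx hj

theorem main_normal {n m : ℕ} (H : Subgroup (MulAut (FreeGroup (Fin n)))) [hHn : H.Normal]
    (hH : H.index ≠ 0) (f : H →* GL (Fin m) ℤ)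
    (hmod : ∀ h : H, ∃ B : Matrix (Fin m) (Fin m) ℤ,
      (f h : Matrix (Fin m) (Fin m) ℤ) = 1 + (3 : ℤ) • B)
    (i : Fin n) (Y : Finset (Fin n)) (hiY : i ∉ Y) (hcard : Y.card + 4 * m ≤ n + 1) (hm : 2 ≤ m)
    (w : Sx i) (hw : (w : FreeGroup (Fin n)) ∈ Sy (Y : Set (Fin n))) :
    ∃ h : T i (1, w) ^ H.index ∈ H, f ⟨_, h⟩ = 1 := by
  classical
  have : H.FiniteIndex := ⟨hH⟩
  have hpow : ∀ g : MulAut (FreeGroup (Fin n)), g ^ H.index ∈ H := fun g =>
    Subgroup.pow_index_mem H g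
  set N := H.index with hN
  -- the pairs of letters
  have hiY' : i ∉ (Y : Set (Fin n)) := by simpa using hiY
  obtain ⟨t⟩ : Nonempty (Fin (2 * m - 1) × Bool ↪ {j : Fin n // j ∉ insert i Y}) := by
    refine Function.Embedding.nonempty_of_card_le ?_
    rw [Fintype.card_prod, Fintype.card_fin, Fintype.card_bool, Fintype.card_subtype_compl,
      Fintype.card_fin]
    have : Fintype.card {x // x ∈ insert i Y} = Y.card + 1 := by
      rw [Fintype.card_coe, Finset.card_insert_of_notMem hiY]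
    rw [this]
    omega
  have htY : ∀ a, (t a : Fin n) ∉ (Y : Set (Fin n)) := fun a h =>
    (t a).2 (Finset.mem_insert_of_mem (by simpa using h))
  have hti : ∀ a, i ≠ (t a : Fin n) := fun a h => (t a).2 (h ▸ Finset.mem_insert_self _ _)
  have htinj : ∀ a b, a ≠ b → (t a : Fin n) ≠ t b := fun a b hab h => hab (t.injective (Subtype.ext h))
  set w₀ : FreeGroup (Fin n) := (w : FreeGroup (Fin n)) ^ N with hw₀def
  have hw₀ : w₀ ∈ Sy (Y : Set (Fin n)) := pow_mem hw N
  have hM : ∀ a, T (t a : Fin n) (⟨w₀⁻¹, inv_mem (Sy_le_Sx (htY a) hw₀)⟩, 1) ∈ H := by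
    intro a
    have h1 := hpow (T (t a : Fin n) (⟨(w : FreeGroup (Fin n))⁻¹,
      inv_mem (Sy_le_Sx (htY a) hw)⟩, 1))
    rw [← map_pow] at h1
    convert h1 using 2
    ext
    · simp [hw₀def]
    · simp
  have hwH : T i (1, ⟨w₀, Sy_le_Sx hiY' hw₀⟩) ∈ H := by
    have h1 := hpow (T i (1, w))
    rw [← map_pow] at h1
    convert h1 using 2
    ext
    · simp
    · simp [hw₀def]
  -- unipotency on each good pair
  have hun : ∀ a : Fin (2 * m - 1), ∀ r : Sx i,
      (r : FreeGroup (Fin n)) ∈ Sy ((Y : Set (Fin n)) ∪ {(t (a, false) : Fin n), (t (a, true) : Fin n)}) →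
      ∀ h : T i (1, r) ∈ H, IsNilpotent ((f ⟨T i (1, r), h⟩ : Matrix (Fin m) (Fin m) ℤ) - 1) := by
    intro a r hr h
    obtain ⟨b, hb⟩ : ∃ b : Fin (2 * m - 1), b ≠ a := by
      have : Nontrivial (Fin (2 * m - 1)) := Fin.nontrivial_iff_two_le.2 (by omega)
      exact exists_ne a
    have hnot : ∀ x, (t (b, x) : Fin n) ∉ ((Y : Set (Fin n)) ∪
        {(t (a, false) : Fin n), (t (a, true) : Fin n)}) := by
      intro x hx
      rcases hx with hx | hx
      · exact htY _ hx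
      · rcases hx with hx | hx
        · exact htinj (b, x) (a, false) (fun h => hb (Prod.ext_iff.1 h).1) hx
        · exact htinj (b, x) (a, true) (fun h => hb (Prod.ext_iff.1 h).1) hx
    exact unip H hH f hmod (hti (b, false)).symm (hti (b, true)).symm
      (htinj (b, false) (b, true) (by simp)) r (Sy_le_Sx (hnot false) hr) (Sy_le_Sx (hnot true) hr) h
  -- some pair is good
  have hgood : ∃ a : Fin (2 * m - 1), ∀ x : Bool, ∀ r : Sx i,
      (r : FreeGroup (Fin n)) ∈ Sy ((Y : Set (Fin n)) ∪ {(t (a, false) : Fin n), (t (a, true) : Fin n)}) →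
      ∀ h : T i (1, r) ∈ H,
        f ⟨T i (1, r), h⟩ * f ⟨_, hM (a, x)⟩ = f ⟨_, hM (a, x)⟩ * f ⟨T i (1, r), h⟩ := by
    by_contra hcon
    push Not at hcon
    choose x r hr h hne using hcon
    set P : Fin (2 * m - 1) → Matrix (Fin m) (Fin m) ℚ := fun a =>
      ((f ⟨T i (1, r a), h a⟩ : GL (Fin m) ℤ) : Matrix (Fin m) (Fin m) ℤ).map (Int.castRingHom ℚ)
      with hP
    set Q : Fin (2 * m - 1) → Matrix (Fin m) (Fin m) ℚ := fun a =>
      ((f ⟨_, hM (a, x a)⟩ : GL (Fin m) ℤ) : Matrix (Fin m) (Fin m) ℤ).map (Int.castRingHom ℚ)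
      with hQ
    have hinj : Function.Injective (fun A : Matrix (Fin m) (Fin m) ℤ => A.map (Int.castRingHom ℚ)) :=
      Matrix.map_injective (Int.cast_injective)
    have := Pool.Agent.Helper68.AutF.M1 (by omega) P Q (by
      intro a b hab
      have hnot : (t (b, x b) : Fin n) ∉ ((Y : Set (Fin n)) ∪
          {(t (a, false) : Fin n), (t (a, true) : Fin n)}) := by
        intro hx
        rcases hx with hx | hx
        · exact htY _ hx
        · rcases hx with hx | hx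
          · exact htinj (b, x b) (a, false) (fun h => hab (Prod.ext_iff.1 h).1.symm) hx
          · exact htinj (b, x b) (a, true) (fun h => hab (Prod.ext_iff.1 h).1.symm) hx
      have hcomm := T_comm (hti (b, x b)) (1, r a)
        (⟨w₀⁻¹, inv_mem (Sy_le_Sx (htY (b, x b)) hw₀)⟩, 1) (by simp) (Sy_le_Sx hnot (hr a))
        (inv_mem (Sy_le_Sx hiY' hw₀)) (by simp)
      have hcomm' : (⟨_, hM (b, x b)⟩ : H) * ⟨T i (1, r a), h a⟩ =
          ⟨T i (1, r a), h a⟩ * ⟨_, hM (b, x b)⟩ := Subtype.ext hcomm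
      have h3 := congrArg f hcomm'
      rw [map_mul, map_mul] at h3
      have h4 := congrArg (fun A : GL (Fin m) ℤ =>
        (A : Matrix (Fin m) (Fin m) ℤ).map (Int.castRingHom ℚ)) h3
      simp only [Units.val_mul, Matrix.map_mul] at h4
      exact h4.symm) (by
      intro a hPQ
      apply hne a
      apply Units.ext
      apply hinj
      simp only [Units.val_mul, Matrix.map_mul]
      exact hPQ)
    omega
  obtain ⟨a, ha⟩ := hgood
  have key := good_pair H hH f (Y : Set (Fin n)) i (t (a, false)) (t (a, true)) hiY'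
    (hti _) (hti _) (htinj _ _ (by simp)) (htY _) (htY _) (hun a) w₀ hw₀ (hM _) (hM _) hwH
    (ha false) (ha true)
  refine ⟨hpow _, ?_⟩
  have e : (⟨T i (1, w) ^ N, hpow _⟩ : H) = ⟨T i (1, ⟨w₀, Sy_le_Sx hiY' hw₀⟩), hwH⟩ := by
    apply Subtype.ext
    change T i (1, w) ^ N = T i (1, ⟨w₀, Sy_le_Sx hiY' hw₀⟩)
    rw [← map_pow]
    congr 1
    ext
    · simp
    · simp [hw₀def]
  rw [e]
  exact key

/-- reduction mod 3 -/
noncomputable def red (m : ℕ) : GL (Fin m) ℤ →* GL (Fin m) (ZMod 3) :=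
  Matrix.GeneralLinearGroup.map (Int.castRingHom (ZMod 3))

theorem red_eq_one {m : ℕ} (A : GL (Fin m) ℤ) (h : red m A = 1) :
    ∃ B : Matrix (Fin m) (Fin m) ℤ, (A : Matrix (Fin m) (Fin m) ℤ) = 1 + (3 : ℤ) • B := by
  have h1 : ∀ a b, ((A : Matrix (Fin m) (Fin m) ℤ) a b : ZMod 3) = (1 : Matrix (Fin m) (Fin m) (ZMod 3)) a b := by
    intro a b
    have := congrArg (fun M : GL (Fin m) (ZMod 3) => (M : Matrix (Fin m) (Fin m) (ZMod 3)) a b) h
    simpa [red] using this
  have h2 : ∀ a b, (3 : ℤ) ∣ (A : Matrix (Fin m) (Fin m) ℤ) a b - (1 : Matrix (Fin m) (Fin m) ℤ) a b := by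
    intro a b
    have h3 := h1 a b
    have h4 : ((1 : Matrix (Fin m) (Fin m) (ZMod 3)) a b) = (((1 : Matrix (Fin m) (Fin m) ℤ) a b : ℤ) : ZMod 3) := by
      by_cases hab : a = b
      · subst hab; simp
      · simp [Matrix.one_apply_ne hab]
    rw [h4] at h3
    exact_mod_cast (ZMod.intCast_eq_intCast_iff_dvd_sub _ _ 3).1 h3.symm
  choose B hB using h2
  refine ⟨Matrix.of B, ?_⟩
  ext a b
  rw [Matrix.add_apply, Matrix.smul_apply, Matrix.of_apply, smul_eq_mul, ← hB]
  ring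

/-- Qualitative version, for arbitrary finite-index subgroups. -/
theorem main_qual {n m : ℕ} (H : Subgroup (MulAut (FreeGroup (Fin n)))) (hH : H.index ≠ 0)
    (f : H →* GL (Fin m) ℤ)
    (i : Fin n) (Y : Finset (Fin n)) (hiY : i ∉ Y) (hcard : Y.card + 4 * m ≤ n + 1) (hm : 2 ≤ m)
    (w : Sx i) (hw : (w : FreeGroup (Fin n)) ∈ Sy (Y : Set (Fin n))) :
    ∃ k : ℕ, 0 < k ∧ ∃ h : T i (1, w) ^ k ∈ H, f ⟨_, h⟩ = 1 := by
  classical
  have : H.FiniteIndex := ⟨hH⟩
  set K : Subgroup H := ((red m).comp f).ker with hK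
  have hKfi : K.FiniteIndex := by
    rw [hK]
    infer_instance
  set H₁ : Subgroup (MulAut (FreeGroup (Fin n))) := K.map H.subtype with hH₁
  have hH₁i : H₁.index ≠ 0 := by
    rw [hH₁, Subgroup.index_map_subtype]
    exact mul_ne_zero hKfi.index_ne_zero hH
  have : H₁.FiniteIndex := ⟨hH₁i⟩
  set H₂ := H₁.normalCore with hH₂
  have hH₂i : H₂.index ≠ 0 := Subgroup.FiniteIndex.index_ne_zero
  have hle : H₂ ≤ H := (Subgroup.normalCore_le H₁).trans (Subgroup.map_subtype_le K)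
  obtain ⟨h, hh⟩ := main_normal H₂ hH₂i (f.comp (Subgroup.inclusion hle)) (by
    intro x
    refine red_eq_one _ ?_
    obtain ⟨y, hy, hyx⟩ := Subgroup.mem_map.1 (Subgroup.normalCore_le H₁ x.2)
    have : Subgroup.inclusion hle x = y := Subtype.ext hyx.symm
    rw [MonoidHom.comp_apply, this]
    exact hy) i Y hiY hcard hm w hw
  exact ⟨H₂.index, Nat.pos_of_ne_zero hH₂i, hle h, hh⟩

end Helper38.AutF
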