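import Mathlib
import Pool.Agent.Helper38.AutF.Core
import Pool.Agent.Helper26.AutF.Iso

/-!
The second core lemma: if `m` commuting twists by the same word `w` act through a unipotent group
of `m × m` matrices together with a representation of a finite-index normal subgroup, then the
representation kills `w`.
-/

namespace Helper38.AutF

open Matrix

theorem core_sum2 {Q : Type*} [Group Q] [Fintype Q] (Ψ l : Q → ℚ) (t : Q) (a : ℚ)
    (h : ∀ g, l (g * t) = l g + a * Ψ (g * t)) :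
    a ^ 2 * ∑ g, Ψ g ^ 2 = 2 * a * ∑ g, l g * Ψ g := by
  have e1 : ∑ g, (l (g * t) - a * Ψ (g * t)) ^ 2 = ∑ g, (l g - a * Ψ g) ^ 2 :=
    Equiv.sum_comp (Equiv.mulRight t) (fun g => (l g - a * Ψ g) ^ 2)
  have e2 : ∑ g, (l (g * t) - a * Ψ (g * t)) ^ 2 = ∑ g, l g ^ 2 :=
    Finset.sum_congr rfl fun g _ => by rw [h g]; ring
  have e3 : ∑ g, (l g - a * Ψ g) ^ 2 = ∑ g, l g ^ 2 - 2 * a * ∑ g, l g * Ψ g +
      a ^ 2 * ∑ g, Ψ g ^ 2 := by
    rw [Finset.mul_sum, Finset.mul_sum, ← Finset.sum_sub_distrib, ← Finset.sum_add_distrib]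
    exact Finset.sum_congr rfl fun g _ => by ring
  linarith

/-- descending functions to the quotient -/
theorem desc {Γ : Type*} [Group Γ] (F : Subgroup Γ) [hFn : F.Normal] (p : Γ → ℚ)
    (hp : ∀ g, ∀ r ∈ F, p (r * g) = p g) (g : Γ) :
    p (Quotient.out (QuotientGroup.mk g : Γ ⧸ F)) = p g := by
  obtain ⟨h, hh⟩ := QuotientGroup.mk_out_eq_mul F g
  rw [hh]
  have : g * (h : Γ) = (g * h * g⁻¹) * g := by group
  rw [this]
  exact hp g _ (hFn.conj_mem _ h.2 g)

theorem desc_mul {Γ : Type*} [Group Γ] (F : Subgroup Γ) [hFn : F.Normal] (p : Γ → ℚ)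
    (hp : ∀ g, ∀ r ∈ F, p (r * g) = p g) (q : Γ ⧸ F) (s : Γ) :
    p (Quotient.out (q * (QuotientGroup.mk s : Γ ⧸ F))) = p (Quotient.out q * s) := by
  have : q * (QuotientGroup.mk s : Γ ⧸ F) = QuotientGroup.mk (Quotient.out q * s) := by
    rw [QuotientGroup.mk_mul]
    congr 1
    exact (QuotientGroup.out_eq' q).symm
  rw [this, desc F p hp]

/-- entry of a triple product as a matrix coefficient -/
theorem entry_eq {m : ℕ} (A M B : Matrix (Fin m) (Fin m) ℚ) (p q : Fin m) :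
    (A * M * B) p q = (fun j => A p j) ⬝ᵥ (M *ᵥ (fun j => B j q)) := by
  rw [Matrix.mul_assoc, Matrix.mul_apply]
  rfl

/-- **Second core lemma.** -/
theorem core2 {Γ : Type*} [Group Γ] {m : ℕ} (F : Subgroup Γ) [hFn : F.Normal] (hFi : F.index ≠ 0)
    (U : Subgroup (GL (Fin m) ℚ)) (φ : Γ → Matrix (Fin m) (Fin m) ℚ)
    (hφU : ∀ r ∈ F, ∃ u ∈ U, (u : Matrix (Fin m) (Fin m) ℚ) = φ r) (hone : φ 1 = 1)
    (hmul : ∀ r ∈ F, ∀ s ∈ F, φ (r * s) = φ r * φ s)
    (K : ℕ) (hK : ∀ L : List (Matrix (Fin m) (Fin m) ℚ), L.length = K →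
      (∀ A ∈ L, ∃ u ∈ U, A = (u : Matrix (Fin m) (Fin m) ℚ) - 1) → L.prod = 0)
    {τ : Type*} [Fintype τ] [DecidableEq τ] (hτ : m ≤ Fintype.card τ)
    (w : Γ) (hw : w ∈ F) (x : τ → Γ) (Λ : τ → Γ →* Γ)
    (h1 : ∀ t, Λ t (x t) = x t * w) (h2 : ∀ s t, s ≠ t → Λ t (x s) = x s)
    (hΛ : ∀ t g, Λ t g * g⁻¹ ∈ Subgroup.normalClosure {w})
    (b : τ → GL (Fin m) ℚ) (hbU : ∀ t, b t ∈ U) (hbc : ∀ s t, b s * b t = b t * b s)
    (hb : ∀ t, ∀ r ∈ F, (b t : Matrix (Fin m) (Fin m) ℚ) * φ r = φ (Λ t r) * b t) :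
    φ w = 1 := by
  classical
  set S : Set (Matrix (Fin m) (Fin m) ℚ) :=
    {A | ∃ u ∈ U, A = (u : Matrix (Fin m) (Fin m) ℚ) - 1} with hS
  have hUS : ∀ u ∈ U, (u : Matrix (Fin m) (Fin m) ℚ) - 1 ∈ S := fun u hu => ⟨u, hu, rfl⟩
  have hNF : Subgroup.normalClosure {w} ≤ F :=
    Subgroup.normalClosure_le_normal (by simpa using hw)
  have hconj : ∀ g, g * w * g⁻¹ ∈ F := fun g => hFn.conj_mem w hw g
  have hst1 : ∀ k : ℕ, ∀ M ∈ ZZ S k, ∀ u ∈ U, (u : Matrix (Fin m) (Fin m) ℚ) * M ∈ ZZ S k := by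
    intro k M hM u hu
    have : (u : Matrix (Fin m) (Fin m) ℚ) * M = ((u : Matrix (Fin m) (Fin m) ℚ) - 1) * M + M := by
      rw [sub_mul, one_mul, sub_add_cancel]
    rw [this]
    exact (ZZ S k).add_mem (ZZ_left' (hUS u hu) hM) hM
  have hst2 : ∀ k : ℕ, ∀ M ∈ ZZ S k, ∀ u ∈ U, M * (u : Matrix (Fin m) (Fin m) ℚ) ∈ ZZ S k := by
    intro k M hM u hu
    have : M * (u : Matrix (Fin m) (Fin m) ℚ) = M * ((u : Matrix (Fin m) (Fin m) ℚ) - 1) + M := by
      rw [mul_sub, mul_one, sub_add_cancel]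
    rw [this]
    exact (ZZ S k).add_mem (ZZ_right' (hUS u hu) hM) hM
  have hinv : ∀ r ∈ F, φ r * φ r⁻¹ = 1 := by
    intro r hr
    rw [← hmul r hr r⁻¹ (F.inv_mem hr), mul_inv_cancel, hone]
  have hinv' : ∀ r ∈ F, φ r⁻¹ * φ r = 1 := by
    intro r hr
    rw [← hmul r⁻¹ (F.inv_mem hr) r hr, inv_mul_cancel, hone]
  have step : ∀ k : ℕ, (∀ g, φ (g * w * g⁻¹) - 1 ∈ ZZ S (k + 1)) →
      ∀ g, φ (g * w * g⁻¹) - 1 ∈ ZZ S k := by
    intro k hk
    have hN : ∀ ν ∈ Subgroup.normalClosure {w}, φ ν - 1 ∈ ZZ S (k + 1) := by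
      intro ν hν
      unfold Subgroup.normalClosure at hν
      have key : φ ν - 1 ∈ ZZ S (k + 1) ∧ ν ∈ F := by
        induction hν using Subgroup.closure_induction with
        | mem x hx =>
          rw [Group.conjugatesOfSet] at hx
          simp only [Set.mem_singleton_iff, Set.iUnion_iUnion_eq_left] at hx
          replace hx : IsConj w x := hx
          rw [isConj_iff] at hx
          obtain ⟨c, hc⟩ := hx
          rw [← hc]
          exact ⟨hk c, hconj c⟩
        | one =>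
          rw [hone, sub_self]
          exact ⟨(ZZ S (k + 1)).zero_mem, F.one_mem⟩
        | mul x y hx hy hx1 hy1 =>
          refine ⟨?_, F.mul_mem hx1.2 hy1.2⟩
          rw [hmul x hx1.2 y hy1.2]
          have : φ x * φ y - 1 = φ x * (φ y - 1) + (φ x - 1) := by
            rw [mul_sub, mul_one]; abel
          rw [this]
          obtain ⟨u, hu, hux⟩ := hφU x hx1.2
          rw [← hux] at hx1 ⊢
          exact (ZZ S (k + 1)).add_mem (hst1 _ _ hy1.1 _ hu) hx1.1
        | inv x hx hx1 =>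
          refine ⟨?_, F.inv_mem hx1.2⟩
          have : φ x⁻¹ - 1 = - (φ x⁻¹ * (φ x - 1)) := by
            rw [mul_sub, mul_one, hinv' x hx1.2]; abel
          rw [this]
          obtain ⟨u, hu, hux⟩ := hφU x⁻¹ (F.inv_mem hx1.2)
          rw [← hux]
          exact (ZZ S (k + 1)).neg_mem (hst1 _ _ hx1.1 _ hu)
      exact key.1
    by_contra hcon
    push Not at hcon
    obtain ⟨g₀, hg₀⟩ := hcon
    have hg₀' : ∃ A B : List (Matrix (Fin m) (Fin m) ℚ), (∀ x ∈ A, x ∈ S) ∧ (∀ x ∈ B, x ∈ S) ∧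
        k ≤ A.length + B.length ∧ A.prod * (φ (g₀ * w * g₀⁻¹) - 1) * B.prod ≠ 0 := by
      by_contra hno
      push Not at hno
      exact hg₀ (fun A B hA hB hk => hno A B hA hB hk)
    obtain ⟨A, B, hA, hB, hAB, hne⟩ := hg₀'
    set M₀ : Matrix (Fin m) (Fin m) ℚ := φ (g₀ * w * g₀⁻¹) - 1 with hM₀
    obtain ⟨p, q, hpq⟩ : ∃ p q, (A.prod * M₀ * B.prod) p q ≠ 0 := by
      by_contra hno
      push Not at hno
      exact hne (by ext p q; exact hno p q)
    set ξ : Matrix (Fin m) (Fin m) ℚ → ℚ := fun M => (A.prod * M * B.prod) p q with hξ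
    have ξadd : ∀ M N, ξ (M + N) = ξ M + ξ N := by
      intro M N; simp only [hξ, mul_add, add_mul, Matrix.add_apply]
    have ξsub : ∀ M N, ξ (M - N) = ξ M - ξ N := by
      intro M N; simp only [hξ, mul_sub, sub_mul, Matrix.sub_apply]
    have ξz : ∀ M ∈ ZZ S k, ξ M = 0 := by
      intro M hM
      simp only [hξ]
      rw [hM A B hA hB hAB]; rfl
    have ξl : ∀ M ∈ ZZ S (k + 1), ∀ u ∈ U, ξ ((u : Matrix (Fin m) (Fin m) ℚ) * M) = ξ M := by
      intro M hM u hu
      have e : (u : Matrix (Fin m) (Fin m) ℚ) * M =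
          ((u : Matrix (Fin m) (Fin m) ℚ) - 1) * M + M := by
        rw [sub_mul, one_mul, sub_add_cancel]
      rw [e, ξadd, ξz _ (ZZ_left (hUS u hu) hM), zero_add]
    have ξr : ∀ M ∈ ZZ S (k + 1), ∀ u ∈ U, ξ (M * (u : Matrix (Fin m) (Fin m) ℚ)) = ξ M := by
      intro M hM u hu
      have e : M * (u : Matrix (Fin m) (Fin m) ℚ) =
          M * ((u : Matrix (Fin m) (Fin m) ℚ) - 1) + M := by
        rw [mul_sub, mul_one, sub_add_cancel]
      rw [e, ξadd, ξz _ (ZZ_right (hUS u hu) hM), zero_add]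
    have hcinv : ∀ M ∈ ZZ S (k + 1), ∀ r ∈ F, ξ (φ r * M * φ r⁻¹) = ξ M := by
      intro M hM r hr
      obtain ⟨u, hu, hur⟩ := hφU r hr
      obtain ⟨u', hu', hur'⟩ := hφU r⁻¹ (F.inv_mem hr)
      rw [← hur, ← hur', ξr _ (hst1 _ _ hM _ hu) _ hu', ξl _ hM _ hu]
    -- the functions `Ψ` and `l t`
    set Ψ : Γ → ℚ := fun g => ξ (φ (g * w * g⁻¹) - 1) with hΨ
    set l : τ → Γ → ℚ := fun t g => ξ (φ (Λ t g * g⁻¹) - 1) with hl
    have hΨinv : ∀ g, ∀ r ∈ F, Ψ (r * g) = Ψ g := by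
      intro g r hr
      have e1 : (r * g) * w * (r * g)⁻¹ = r * (g * w * g⁻¹) * r⁻¹ := by group
      simp only [hΨ]
      rw [e1, hmul _ (F.mul_mem hr (hconj g)) _ (F.inv_mem hr), hmul _ hr _ (hconj g)]
      have e2 : φ r * φ (g * w * g⁻¹) * φ r⁻¹ - 1 = φ r * (φ (g * w * g⁻¹) - 1) * φ r⁻¹ := by
        rw [mul_sub, mul_one, sub_mul, hinv r hr]
      rw [e2]
      exact hcinv _ (hk g) r hr
    -- additivity of `l`
    have hladd : ∀ t g, ∀ r ∈ F, l t (r * g) = l t r + l t g := by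
      intro t g r hr
      have hr1 : Λ t r * r⁻¹ ∈ F := hNF (hΛ t r)
      have hg1 : Λ t g * g⁻¹ ∈ F := hNF (hΛ t g)
      have e1 : Λ t (r * g) * (r * g)⁻¹ = (Λ t r * r⁻¹) * (r * (Λ t g * g⁻¹) * r⁻¹) := by
        rw [map_mul]; group
      simp only [hl]
      rw [e1, hmul _ hr1 _ (hFn.conj_mem _ hg1 r), hmul _ (F.mul_mem hr hg1) _ (F.inv_mem hr),
        hmul _ hr _ hg1]
      have e2 : φ (Λ t r * r⁻¹) * (φ r * φ (Λ t g * g⁻¹) * φ r⁻¹) - 1 =
          (φ (Λ t r * r⁻¹) - 1) + φ (Λ t r * r⁻¹) * (φ r * (φ (Λ t g * g⁻¹) - 1) * φ r⁻¹) := by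
        rw [mul_sub, sub_mul, mul_one, hinv r hr, mul_sub, mul_one]; abel
      rw [e2, ξadd]
      congr 1
      obtain ⟨u, hu, hur⟩ := hφU _ hr1
      obtain ⟨u₁, hu₁, hur₁⟩ := hφU r hr
      obtain ⟨u₂, hu₂, hur₂⟩ := hφU r⁻¹ (F.inv_mem hr)
      rw [← hur, ← hur₁, ← hur₂,
        ξl _ (hst2 _ _ (hst1 _ _ (hN _ (hΛ t g)) _ hu₁) _ hu₂) _ hu,
        ξr _ (hst1 _ _ (hN _ (hΛ t g)) _ hu₁) _ hu₂, ξl _ (hN _ (hΛ t g)) _ hu₁]
    have hlt : ∀ t g, l t (g * x t) = l t g + Ψ (g * x t) := by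
      intro t g
      have hg1 : Λ t g * g⁻¹ ∈ F := hNF (hΛ t g)
      have e1 : Λ t (g * x t) * (g * x t)⁻¹ = (Λ t g * g⁻¹) * ((g * x t) * w * (g * x t)⁻¹) := by
        rw [map_mul, h1]; group
      simp only [hl, hΨ]
      rw [e1, hmul _ hg1 _ (hconj _)]
      have e2 : φ (Λ t g * g⁻¹) * φ ((g * x t) * w * (g * x t)⁻¹) - 1 =
          (φ (Λ t g * g⁻¹) - 1) + φ (Λ t g * g⁻¹) * (φ ((g * x t) * w * (g * x t)⁻¹) - 1) := by
        rw [mul_sub, mul_one]; abel
      rw [e2, ξadd]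
      obtain ⟨u, hu, hur⟩ := hφU _ hg1
      rw [← hur, ξl _ (hk _) _ hu]
    have hls : ∀ s t g, s ≠ t → l t (g * x s) = l t g := by
      intro s t g hst
      have e1 : Λ t (g * x s) * (g * x s)⁻¹ = Λ t g * g⁻¹ := by
        rw [map_mul, h2 s t hst]; group
      simp only [hl]
      rw [e1]
    -- `l t` on `F` is a commutator coefficient
    have hlF : ∀ t, ∀ r ∈ F, l t r = ξ ((b t : Matrix (Fin m) (Fin m) ℚ) * φ r - φ r * b t) := by
      intro t r hr
      have hr1 : Λ t r * r⁻¹ ∈ F := hNF (hΛ t r)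
      have e0 : Λ t r = (Λ t r * r⁻¹) * r := by group
      have e1 : (b t : Matrix (Fin m) (Fin m) ℚ) * φ r - φ r * b t =
          (φ (Λ t r * r⁻¹) - 1) * (φ r * b t) := by
        rw [hb t r hr]
        conv_lhs => rw [e0, hmul _ hr1 _ hr]
        rw [sub_mul, one_mul, mul_assoc]
      obtain ⟨u, hu, hur⟩ := hφU r hr
      have e2 : (u : Matrix (Fin m) (Fin m) ℚ) * (b t : Matrix (Fin m) (Fin m) ℚ) =
          ((u * b t : GL (Fin m) ℚ) : Matrix (Fin m) (Fin m) ℚ) := by rw [Units.val_mul]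
      rw [e1, ← hur, e2, ξr _ (hN _ (hΛ t r)) _ (U.mul_mem hu (hbU t))]
    have : F.FiniteIndex := ⟨hFi⟩
    have : Fintype (Γ ⧸ F) := Subgroup.fintypeQuotientOfFiniteIndex
    -- positivity of the norm of `Ψ`
    have hΨ₀ : Ψ g₀ ≠ 0 := hpq
    have hnorm : (0 : ℚ) < ∑ q : Γ ⧸ F, Ψ q.out ^ 2 := by
      refine Finset.sum_pos' (fun q _ => sq_nonneg _) ⟨QuotientGroup.mk g₀, Finset.mem_univ _, ?_⟩
      rw [desc F Ψ hΨinv]
      positivity
    -- structure of linear relations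
    have hrel : ∀ α : τ → ℚ, (∀ r ∈ F, ∑ t, α t * l t r = 0) → ∀ s t, α s ≠ 0 → α t ≠ 0 →
        α s = α t := by
      intro α hα
      set L : Γ → ℚ := fun g => ∑ t, α t * l t g with hL
      have hLinv : ∀ g, ∀ r ∈ F, L (r * g) = L g := by
        intro g r hr
        simp only [hL]
        have : ∀ t, α t * l t (r * g) = α t * l t r + α t * l t g := by
          intro t; rw [hladd t g r hr]; ring
        simp only [this, Finset.sum_add_distrib, hα r hr, zero_add]
      have hLt : ∀ g t, L (g * x t) = L g + α t * Ψ (g * x t) := by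
        intro g t
        simp only [hL]
        rw [← Finset.add_sum_erase _ _ (Finset.mem_univ t), ← Finset.add_sum_erase (a := t)
          (s := Finset.univ) (f := fun s => α s * l s g) (Finset.mem_univ t), hlt]
        have : ∑ s ∈ Finset.univ.erase t, α s * l s (g * x t) =
            ∑ s ∈ Finset.univ.erase t, α s * l s g := by
          refine Finset.sum_congr rfl fun s hs => ?_
          rw [hls t s g (Finset.ne_of_mem_erase hs).symm]
        rw [this]; ring
      have hq : ∀ t, α t ^ 2 * ∑ q : Γ ⧸ F, Ψ q.out ^ 2 =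
          2 * α t * ∑ q : Γ ⧸ F, L q.out * Ψ q.out := by
        intro t
        refine core_sum2 (fun q : Γ ⧸ F => Ψ q.out) (fun q => L q.out) (QuotientGroup.mk (x t))
          (α t) (fun g => ?_)
        simp only [desc_mul F L hLinv, desc_mul F Ψ hΨinv]
        exact hLt _ _
      intro s t hs ht
      have h3 : ∀ t, α t ≠ 0 → α t = 2 * (∑ q : Γ ⧸ F, L q.out * Ψ q.out) /
          (∑ q : Γ ⧸ F, Ψ q.out ^ 2) := by
        intro t ht
        rw [eq_div_iff hnorm.ne']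
        have := hq t
        have h4 : α t * (α t * ∑ q : Γ ⧸ F, Ψ q.out ^ 2) =
            α t * (2 * ∑ q : Γ ⧸ F, L q.out * Ψ q.out) := by
          calc α t * (α t * ∑ q : Γ ⧸ F, Ψ q.out ^ 2) = α t ^ 2 * ∑ q : Γ ⧸ F, Ψ q.out ^ 2 := by ring
            _ = 2 * α t * ∑ q : Γ ⧸ F, L q.out * Ψ q.out := this
            _ = _ := by ring
        exact mul_left_cancel₀ ht h4
      rw [h3 s hs, h3 t ht]
    -- the vectors
    set v : Fin m → ℚ := fun j => B.prod j q with hv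
    set f' : Fin m → ℚ := fun j => A.prod p j with hf'
    have ξv : ∀ M, ξ M = f' ⬝ᵥ (M *ᵥ v) := fun M => entry_eq _ _ _ _ _
    have hM₀z : M₀ ∈ ZZ S (k + 1) := hk g₀
    have hM₀S : M₀ ∈ S := by
      obtain ⟨u, hu, hur⟩ := hφU _ (hconj g₀)
      exact ⟨u, hu, by rw [hM₀, hur]⟩
    have hcomm : ∀ s t, (b s : Matrix (Fin m) (Fin m) ℚ) * b t = b t * b s := by
      intro s t
      rw [← Units.val_mul, hbc, Units.val_mul]
    have bound : ∀ (σ : Type _) [Fintype σ] (c : σ → τ),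
        LinearIndependent ℚ (fun (t : σ) (r : F) => l (c t) (r : Γ)) → Fintype.card σ + 2 ≤ m := by
      intro σ _ c hc
      refine Pool.Agent.Helper26.AutF.iso_bound v f' (fun t => (b (c t) : Matrix (Fin m) (Fin m) ℚ)) M₀
        (fun r : F => φ (r : Γ)) (fun s t => hcomm _ _) ?_ ?_ ?_ ?_ ?_ ?_ ?_
      · rw [← ξv]; exact hpq
      · rw [← ξv]; exact ξz _ (ZZ_left hM₀S hM₀z)
      · intro t
        rw [← ξv, ← ξv]
        exact ξl _ hM₀z _ (hbU _)
      · intro t
        rw [← ξv, ← ξv]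
        exact ξr _ hM₀z _ (hbU _)
      · intro r
        obtain ⟨u, hu, hur⟩ := hφU _ r.2
        rw [← ξv, ← ξv, ← hur]
        exact ξl _ hM₀z _ hu
      · intro r
        obtain ⟨u, hu, hur⟩ := hφU _ r.2
        rw [← ξv, ← ξv, ← hur]
        exact ξr _ hM₀z _ hu
      · convert hc using 3 with t r
        rw [← ξv, hlF _ _ r.2]
    by_cases hli : LinearIndependent ℚ (fun (t : τ) (r : F) => l t (r : Γ))
    · have := bound τ id hli
      omega
    · rw [Fintype.not_linearIndependent_iff] at hli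
      obtain ⟨α, hα, t₀, ht₀⟩ := hli
      have hα' : ∀ r ∈ F, ∑ t, α t * l t r = 0 := by
        intro r hr
        have := congrFun hα ⟨r, hr⟩
        simpa [Finset.sum_apply, smul_eq_mul] using this
      have hli2 : LinearIndependent ℚ
          (fun (t : {t : τ // t ≠ t₀}) (r : F) => l (t : τ) (r : Γ)) := by
        rw [Fintype.linearIndependent_iff]
        intro β hβ s'
        by_contra hs'
        set β' : τ → ℚ := fun t => if ht : t ≠ t₀ then β ⟨t, ht⟩ else 0 with hβ'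
        have hβ't₀ : β' t₀ = 0 := by simp [hβ']
        have hβ's : β' s' = β s' := by
          simp only [hβ']
          rw [dif_pos s'.2]
        have hβrel : ∀ r ∈ F, ∑ t, β' t * l t r = 0 := by
          intro r hr
          have e := congrFun hβ ⟨r, hr⟩
          simp only [Finset.sum_apply, Pi.smul_apply, smul_eq_mul, Pi.zero_apply] at e
          rw [← Finset.add_sum_erase _ _ (Finset.mem_univ t₀), hβ't₀, zero_mul, zero_add]
          rw [← e]
          symm
          refine Finset.sum_bij (fun (t : {t : τ // t ≠ t₀}) _ => (t : τ)) ?_ ?_ ?_ ?_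
          · intro t _
            exact Finset.mem_erase.2 ⟨t.2, Finset.mem_univ _⟩
          · intro a _ b _ hab
            exact Subtype.ext hab
          · intro t ht
            exact ⟨⟨t, Finset.ne_of_mem_erase ht⟩, Finset.mem_univ _, rfl⟩
          · intro t _
            simp only [hβ']
            rw [dif_pos t.2]
        -- consider `α + c β'`
        have hcomb : ∀ c : ℚ, α s' + c * β s' ≠ 0 → α s' + c * β s' = α t₀ := by
          intro c hc
          have hr : ∀ r ∈ F, ∑ t, (α t + c * β' t) * l t r = 0 := by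
            intro r hr
            have : ∀ t, (α t + c * β' t) * l t r = α t * l t r + c * (β' t * l t r) := by
              intro t; ring
            simp only [this, Finset.sum_add_distrib, ← Finset.mul_sum, hα' r hr, hβrel r hr]
            ring
          have h5 := hrel _ hr s' t₀ (by rw [hβ's]; exact hc) (by rw [hβ't₀]; simpa using ht₀)
          rw [hβ's, hβ't₀] at h5
          simpa using h5
        -- choose `c` with `α s' + c β s' = 2 α t₀`
        have h6 := hcomb ((2 * α t₀ - α s') / β s')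
        rw [div_mul_cancel₀ _ hs'] at h6
        have h7 : α s' + (2 * α t₀ - α s') = 2 * α t₀ := by ring
        rw [h7] at h6
        have h8 := h6 (mul_ne_zero two_ne_zero ht₀)
        have : α t₀ = 0 := by linarith
        exact ht₀ this
      have h9 := bound {t : τ // t ≠ t₀} Subtype.val hli2
      rw [Fintype.card_subtype_compl, Fintype.card_subtype_eq] at h9
      have : 0 < Fintype.card τ := Fintype.card_pos_iff.2 ⟨t₀⟩
      omega
  have all : ∀ k : ℕ, ∀ g, φ (g * w * g⁻¹) - 1 ∈ ZZ S (2 * K - k) := by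
    intro k
    induction k with
    | zero =>
      intro g
      exact ZZ_top (fun L hL hLS => hK L hL hLS) _
    | succ k ih =>
      rcases Nat.lt_or_ge k (2 * K) with h | h
      · have e : 2 * K - k = (2 * K - (k + 1)) + 1 := by omega
        rw [e] at ih
        exact step _ ih
      · have e : 2 * K - (k + 1) = 2 * K - k := by omega
        rw [e]; exact ih
  have := ZZ_zero (by simpa using all (2 * K) 1)
  exact sub_eq_zero.1 this

end Helper38.AutF
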