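import Mathlib
import Pool.Agent.Helper38.AutF.Core2
import Pool.Agent.Helper79.AutF.Central

/-!
The third core lemma: passing from words in two letters to words in many letters.
-/

namespace Helper38.AutF

open Matrix

/-- **Third core lemma.** -/
theorem core3 {Γ : Type*} [Group Γ] {m : ℕ} (F : Subgroup Γ) [hFn : F.Normal] (hFi : F.index ≠ 0)
    (φ : Γ → Matrix (Fin m) (Fin m) ℚ) (hone : φ 1 = 1)
    (hmul : ∀ r ∈ F, ∀ s ∈ F, φ (r * s) = φ r * φ s)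
    (K : ℕ) (hK : ∀ L : List (Matrix (Fin m) (Fin m) ℚ), L.length = K →
      (∀ A ∈ L, ∃ r ∈ F, A = φ r - 1) → L.prod = 0)
    {η : Type*} (y : η → Γ) (t : Γ) (Λ : Γ → Γ →* Γ)
    (h1 : ∀ h ∈ F, h ∈ Subgroup.closure (Set.range y) → Λ h t = t * h)
    (h2 : ∀ h ∈ F, h ∈ Subgroup.closure (Set.range y) → ∀ a, Λ h (y a) = y a)
    (hΛ : ∀ h ∈ F, h ∈ Subgroup.closure (Set.range y) → ∀ g,
      Λ h g * g⁻¹ ∈ Subgroup.normalClosure {h})
    (dead1 : ∀ a, ∀ r ∈ F, r ∈ Subgroup.closure {t, y a} → ∀ g, φ (g * r * g⁻¹) = 1)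
    (dead2 : ∀ h ∈ F, h ∈ Subgroup.closure (Set.range y) → ∀ a, ∀ r ∈ F,
      r ∈ Subgroup.closure {t, y a} → ∀ g, φ (g * Λ h r * g⁻¹) = 1) :
    ∀ h ∈ F, h ∈ Subgroup.closure (Set.range y) → φ h = 1 := by
  classical
  set Δ : Subgroup Γ := Subgroup.closure (Set.range y) with hΔ
  have hyΔ : ∀ a, y a ∈ Δ := fun a => Subgroup.subset_closure ⟨a, rfl⟩
  set S : Set (Matrix (Fin m) (Fin m) ℚ) := {A | ∃ r ∈ F, A = φ r - 1} with hS
  have hSmem : ∀ r ∈ F, φ r - 1 ∈ S := fun r hr => ⟨r, hr, rfl⟩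
  have hinv : ∀ r ∈ F, φ r * φ r⁻¹ = 1 := by
    intro r hr
    rw [← hmul r hr r⁻¹ (F.inv_mem hr), mul_inv_cancel, hone]
  have hinv' : ∀ r ∈ F, φ r⁻¹ * φ r = 1 := by
    intro r hr
    rw [← hmul r⁻¹ (F.inv_mem hr) r hr, inv_mul_cancel, hone]
  have hNF : ∀ h ∈ F, Subgroup.normalClosure {h} ≤ F := fun h hh =>
    Subgroup.normalClosure_le_normal (by simpa using hh)
  have hconj : ∀ h ∈ F, ∀ g, g * h * g⁻¹ ∈ F := fun h hh g => hFn.conj_mem h hh g
  have hst1 : ∀ k : ℕ, ∀ M ∈ ZZ S k, ∀ r ∈ F, φ r * M ∈ ZZ S k := by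
    intro k M hM r hr
    have : φ r * M = (φ r - 1) * M + M := by rw [sub_mul, one_mul, sub_add_cancel]
    rw [this]
    exact (ZZ S k).add_mem (ZZ_left' (hSmem r hr) hM) hM
  have hst2 : ∀ k : ℕ, ∀ M ∈ ZZ S k, ∀ r ∈ F, M * φ r ∈ ZZ S k := by
    intro k M hM r hr
    have : M * φ r = M * (φ r - 1) + M := by rw [mul_sub, mul_one, sub_add_cancel]
    rw [this]
    exact (ZZ S k).add_mem (ZZ_right' (hSmem r hr) hM) hM
  have step : ∀ k : ℕ, (∀ h ∈ F, h ∈ Δ → ∀ g, φ (g * h * g⁻¹) - 1 ∈ ZZ S (k + 1)) →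
      ∀ h ∈ F, h ∈ Δ → ∀ g, φ (g * h * g⁻¹) - 1 ∈ ZZ S k := by
    intro k hk
    have hN : ∀ h ∈ F, h ∈ Δ → ∀ ν ∈ Subgroup.normalClosure {h}, φ ν - 1 ∈ ZZ S (k + 1) := by
      intro h hh hhΔ ν hν
      unfold Subgroup.normalClosure at hν
      have key : φ ν - 1 ∈ ZZ S (k + 1) ∧ ν ∈ F := by
        induction hν using Subgroup.closure_induction with
        | mem x hx =>
          rw [Group.conjugatesOfSet] at hx
          simp only [Set.mem_singleton_iff, Set.iUnion_iUnion_eq_left] at hx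
          replace hx : IsConj h x := hx
          rw [isConj_iff] at hx
          obtain ⟨c, hc⟩ := hx
          rw [← hc]
          exact ⟨hk h hh hhΔ c, hconj h hh c⟩
        | one =>
          rw [hone, sub_self]
          exact ⟨(ZZ S (k + 1)).zero_mem, F.one_mem⟩
        | mul x y hx hy hx1 hy1 =>
          refine ⟨?_, F.mul_mem hx1.2 hy1.2⟩
          rw [hmul x hx1.2 y hy1.2]
          have : φ x * φ y - 1 = φ x * (φ y - 1) + (φ x - 1) := by
            rw [mul_sub, mul_one]; abel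
          rw [this]
          exact (ZZ S (k + 1)).add_mem (hst1 _ _ hy1.1 _ hx1.2) hx1.1
        | inv x hx hx1 =>
          refine ⟨?_, F.inv_mem hx1.2⟩
          have : φ x⁻¹ - 1 = - (φ x⁻¹ * (φ x - 1)) := by
            rw [mul_sub, mul_one, hinv' x hx1.2]; abel
          rw [this]
          exact (ZZ S (k + 1)).neg_mem (hst1 _ _ hx1.1 _ (F.inv_mem hx1.2))
      exact key.1
    intro h₀ hh₀ hh₀Δ g₀
    by_contra hg₀
    obtain ⟨ξ, hξ0, hξ⟩ := Submodule.exists_le_ker_of_notMem hg₀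
    have hξz : ∀ M ∈ ZZ S k, ξ M = 0 := fun M hM => by
      have := hξ hM
      simpa using this
    have ξl : ∀ M ∈ ZZ S (k + 1), ∀ r ∈ F, ξ (φ r * M) = ξ M := by
      intro M hM r hr
      have e : φ r * M = (φ r - 1) * M + M := by
        rw [sub_mul, one_mul, sub_add_cancel]
      rw [e, map_add, hξz _ (ZZ_left (hSmem r hr) hM), zero_add]
    have ξr : ∀ M ∈ ZZ S (k + 1), ∀ r ∈ F, ξ (M * φ r) = ξ M := by
      intro M hM r hr
      have e : M * φ r = M * (φ r - 1) + M := by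
        rw [mul_sub, mul_one, sub_add_cancel]
      rw [e, map_add, hξz _ (ZZ_right (hSmem r hr) hM), zero_add]
    set Ψ : Γ → Γ → ℚ := fun h g => ξ (φ (g * h * g⁻¹) - 1) with hΨ
    have hΨinv : ∀ h ∈ F, h ∈ Δ → ∀ g, ∀ r ∈ F, Ψ h (r * g) = Ψ h g := by
      intro h hh hhΔ g r hr
      have e1 : (r * g) * h * (r * g)⁻¹ = r * (g * h * g⁻¹) * r⁻¹ := by group
      simp only [hΨ]
      rw [e1, hmul _ (F.mul_mem hr (hconj h hh g)) _ (F.inv_mem hr), hmul _ hr _ (hconj h hh g)]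
      have e2 : φ r * φ (g * h * g⁻¹) * φ r⁻¹ - 1 = φ r * (φ (g * h * g⁻¹) - 1) * φ r⁻¹ := by
        rw [mul_sub, mul_one, sub_mul, hinv r hr]
      rw [e2, ξr _ (hst1 _ _ (hk h hh hhΔ g) _ hr) _ (F.inv_mem hr), ξl _ (hk h hh hhΔ g) _ hr]
    -- additivity of `ξ ∘ (φ - 1)` on elements whose `φ - 1` lies in `ZZ (k+1)`
    have hadd : ∀ a ∈ F, ∀ b ∈ F, φ b - 1 ∈ ZZ S (k + 1) →
        ξ (φ (a * b) - 1) = ξ (φ a - 1) + ξ (φ b - 1) := by
      intro a ha b hb hbz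
      rw [hmul a ha b hb]
      have : φ a * φ b - 1 = (φ a - 1) + φ a * (φ b - 1) := by
        rw [mul_sub, mul_one]; abel
      rw [this, map_add, ξl _ hbz _ ha]
    have hΨmul : ∀ h ∈ F, h ∈ Δ → ∀ h' ∈ F, h' ∈ Δ → ∀ g, Ψ (h * h') g = Ψ h g + Ψ h' g := by
      intro h hh hhΔ h' hh' hh'Δ g
      have e1 : g * (h * h') * g⁻¹ = (g * h * g⁻¹) * (g * h' * g⁻¹) := by group
      simp only [hΨ]
      rw [e1, hadd _ (hconj h hh g) _ (hconj h' hh' g) (hk h' hh' hh'Δ g)]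
    have hΨone : ∀ g, Ψ 1 g = 0 := by
      intro g
      simp only [hΨ]
      rw [mul_one, mul_inv_cancel, hone, sub_self, map_zero]
    have hΨi : ∀ h ∈ F, h ∈ Δ → ∀ g, Ψ h⁻¹ g = - Ψ h g := by
      intro h hh hhΔ g
      have := hΨmul h hh hhΔ h⁻¹ (F.inv_mem hh) (Δ.inv_mem hhΔ) g
      rw [mul_inv_cancel, hΨone] at this
      linarith
    have hΨconj : ∀ u h g, Ψ (u * h * u⁻¹) g = Ψ h (g * u) := by
      intro u h g
      simp only [hΨ]
      congr 3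
      group
    -- invariance of `Ψ h` under `y a`
    have hy : ∀ a, ∀ h ∈ F, h ∈ Δ → ∀ g₁, Ψ h (g₁ * y a) = Ψ h g₁ := by
      intro a h hh hhΔ g₁
      -- the commutator
      set h' : Γ := y a * h * (y a)⁻¹ * h⁻¹ with hh'def
      have hch : y a * h * (y a)⁻¹ ∈ F := hconj h hh _
      have hcΔ : y a * h * (y a)⁻¹ ∈ Δ := Δ.mul_mem (Δ.mul_mem (hyΔ a) hhΔ) (Δ.inv_mem (hyΔ a))
      have hh' : h' ∈ F := F.mul_mem hch (F.inv_mem hh)
      have hh'Δ : h' ∈ Δ := Δ.mul_mem hcΔ (Δ.inv_mem hhΔ)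
      have hΨ' : ∀ g, Ψ h' g = Ψ h (g * y a) - Ψ h g := by
        intro g
        rw [hh'def, hΨmul _ hch hcΔ _ (F.inv_mem hh) (Δ.inv_mem hhΔ), hΨconj, hΨi h hh hhΔ]
        ring
      set Γ₀ : Subgroup Γ := Subgroup.closure {t, y a} with hΓ₀
      have htΓ₀ : t ∈ Γ₀ := Subgroup.subset_closure (by simp)
      have hyΓ₀ : y a ∈ Γ₀ := Subgroup.subset_closure (by simp)
      set F₀ : Subgroup Γ₀ := F.subgroupOf Γ₀ with hF₀
      have hF₀n : F₀.Normal := Subgroup.Normal.subgroupOf hFn Γ₀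
      have : F.FiniteIndex := ⟨hFi⟩
      have hF₀fi : F₀.FiniteIndex := by rw [hF₀]; infer_instance
      have : Fintype (Γ₀ ⧸ F₀) := Subgroup.fintypeQuotientOfFiniteIndex
      -- the function `l`
      set l : Γ₀ → ℚ := fun g => ξ (φ (g₁ * (Λ h' g * (g : Γ)⁻¹) * g₁⁻¹) - 1) with hl
      set P : Γ₀ → ℚ := fun g => Ψ h' (g₁ * g) with hP
      set P₀ : Γ₀ → ℚ := fun g => Ψ h (g₁ * g) with hP₀
      have hPinv : ∀ g, ∀ r ∈ F₀, P (r * g) = P g := by
        intro g r hr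
        simp only [hP]
        have e : g₁ * ((r * g : Γ₀) : Γ) = (g₁ * r * g₁⁻¹) * (g₁ * g) := by
          rw [Subgroup.coe_mul]; group
        rw [e, hΨinv h' hh' hh'Δ _ _ (hconj _ (Subgroup.mem_subgroupOf.1 hr) g₁)]
      have hP₀inv : ∀ g, ∀ r ∈ F₀, P₀ (r * g) = P₀ g := by
        intro g r hr
        simp only [hP₀]
        have e : g₁ * ((r * g : Γ₀) : Γ) = (g₁ * r * g₁⁻¹) * (g₁ * g) := by
          rw [Subgroup.coe_mul]; group
        rw [e, hΨinv h hh hhΔ _ _ (hconj _ (Subgroup.mem_subgroupOf.1 hr) g₁)]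
      have hlinv : ∀ g, ∀ r ∈ F₀, l (r * g) = l g := by
        intro g r hr
        have hrF : (r : Γ) ∈ F := Subgroup.mem_subgroupOf.1 hr
        simp only [hl]
        have e : g₁ * (Λ h' ((r * g : Γ₀) : Γ) * ((r * g : Γ₀) : Γ)⁻¹) * g₁⁻¹ =
            (g₁ * Λ h' r * g₁⁻¹) * (g₁ * (Λ h' g * (g : Γ)⁻¹) * g₁⁻¹) *
              (g₁ * (r : Γ)⁻¹ * g₁⁻¹) := by
          rw [Subgroup.coe_mul, map_mul]; group
        have m1 : Λ h' r ∈ F := by
          have : Λ h' r = Λ h' r * (r : Γ)⁻¹ * r := by group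
          rw [this]
          exact F.mul_mem (hNF h' hh' (hΛ h' hh' hh'Δ r)) hrF
        have m2 : Λ h' g * (g : Γ)⁻¹ ∈ F := hNF h' hh' (hΛ h' hh' hh'Δ g)
        rw [e, hmul _ (F.mul_mem (hconj _ m1 _) (hconj _ m2 _)) _ (hconj _ (F.inv_mem hrF) _),
          hmul _ (hconj _ m1 _) _ (hconj _ m2 _), dead2 h' hh' hh'Δ a r hrF r.2 g₁,
          dead1 a _ (F.inv_mem hrF) (inv_mem r.2) g₁, one_mul, mul_one]
      have hlt : ∀ g, l (g * ⟨t, htΓ₀⟩) = l g + 1 * P (g * ⟨t, htΓ₀⟩) := by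
        intro g
        have m2 : Λ h' g * (g : Γ)⁻¹ ∈ F := hNF h' hh' (hΛ h' hh' hh'Δ g)
        simp only [hl, hP, hΨ, one_mul]
        have e : g₁ * (Λ h' ((g * ⟨t, htΓ₀⟩ : Γ₀) : Γ) * ((g * ⟨t, htΓ₀⟩ : Γ₀) : Γ)⁻¹) * g₁⁻¹ =
            (g₁ * (Λ h' g * (g : Γ)⁻¹) * g₁⁻¹) *
              ((g₁ * ((g * ⟨t, htΓ₀⟩ : Γ₀) : Γ)) * h' * (g₁ * ((g * ⟨t, htΓ₀⟩ : Γ₀) : Γ))⁻¹) := by
          rw [Subgroup.coe_mul, map_mul, h1 h' hh' hh'Δ]; group
        rw [e, hadd _ (hconj _ m2 _) _ (hconj _ hh' _) (hk h' hh' hh'Δ _)]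
      have hly : ∀ g, l (g * ⟨y a, hyΓ₀⟩) = l g := by
        intro g
        simp only [hl]
        congr 3
        rw [Subgroup.coe_mul, map_mul, h2 h' hh' hh'Δ a]; group
      -- sums over the quotient
      have s1 := core_sum2 (Q := Γ₀ ⧸ F₀) (fun q => P q.out) (fun q => l q.out)
        (QuotientGroup.mk ⟨t, htΓ₀⟩) 1 (fun q => by
          simp only [desc_mul F₀ l hlinv, desc_mul F₀ P hPinv]
          exact hlt _)
      have s2 : ∑ q : Γ₀ ⧸ F₀, l q.out * P q.out = 0 := by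
        have e1 : ∀ q : Γ₀ ⧸ F₀, l q.out * P q.out =
            l (Quotient.out (q * (QuotientGroup.mk ⟨y a, hyΓ₀⟩ : Γ₀ ⧸ F₀))) *
              P₀ (Quotient.out (q * (QuotientGroup.mk ⟨y a, hyΓ₀⟩ : Γ₀ ⧸ F₀))) -
              l q.out * P₀ q.out := by
          intro q
          rw [desc_mul F₀ l hlinv, desc_mul F₀ P₀ hP₀inv, hly]
          simp only [hP, hP₀]
          rw [hΨ', Subgroup.coe_mul]
          have : g₁ * (((Quotient.out q : Γ₀) : Γ) * y a) = g₁ * ((Quotient.out q : Γ₀) : Γ) * y a := by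
            group
          rw [this]
          ring
        rw [Finset.sum_congr rfl (fun q _ => e1 q), Finset.sum_sub_distrib, sub_eq_zero]
        exact Equiv.sum_comp (Equiv.mulRight (QuotientGroup.mk ⟨y a, hyΓ₀⟩ : Γ₀ ⧸ F₀))
          (fun q : Γ₀ ⧸ F₀ => l q.out * P₀ q.out)
      rw [s2, mul_zero, one_pow, one_mul] at s1
      have s3 := (Finset.sum_eq_zero_iff_of_nonneg (fun q _ => sq_nonneg _)).1 s1
        (QuotientGroup.mk 1) (Finset.mem_univ _)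
      rw [desc F₀ P hPinv] at s3
      have s4 : P 1 = 0 := pow_eq_zero_iff (two_ne_zero) |>.1 s3
      simp only [hP, Subgroup.coe_one, mul_one] at s4
      rw [hΨ'] at s4
      linarith
    have hyinv : ∀ u ∈ Δ, ∀ h ∈ F, h ∈ Δ → ∀ g, Ψ h (g * u) = Ψ h g := by
      intro u hu
      induction hu using Subgroup.closure_induction with
      | mem x hx =>
        obtain ⟨a, rfl⟩ := hx
        exact hy a
      | one => intro h _ _ g; rw [mul_one]
      | mul x z _ _ hx hz =>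
        intro h hh hhΔ g
        rw [← mul_assoc, hz h hh hhΔ, hx h hh hhΔ]
      | inv x _ hx =>
        intro h hh hhΔ g
        have := hx h hh hhΔ (g * x⁻¹)
        rw [inv_mul_cancel_right] at this
        exact this.symm
    -- conclusion through the centre
    have : F.FiniteIndex := ⟨hFi⟩
    have hfin := Pool.Agent.Helper79.AutF.central_hom_zero (Δ := Δ) (F.subgroupOf Δ)
      (by
        have : (F.subgroupOf Δ).FiniteIndex := by infer_instance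
        exact this.index_ne_zero)
      (fun h => Ψ (h : Γ) g₀)
      (fun a ha b hb => hΨmul _ (Subgroup.mem_subgroupOf.1 ha) a.2 _
        (Subgroup.mem_subgroupOf.1 hb) b.2 g₀)
      (by
        intro u h hh
        have hhF : (h : Γ) ∈ F := Subgroup.mem_subgroupOf.1 hh
        change Ψ ((u * h * u⁻¹ : Δ) : Γ) g₀ = Ψ (h : Γ) g₀
        rw [Subgroup.coe_mul, Subgroup.coe_mul, Subgroup.coe_inv, hΨconj,
          hyinv u u.2 h hhF h.2])
      (((↑) : Δ → Γ) ⁻¹' (Set.range y)) Subgroup.closure_closure_coe_preimage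
      (by
        rintro x ⟨a, ha⟩ N hN
        have hNF' : ((x ^ N : Δ) : Γ) ∈ F := Subgroup.mem_subgroupOf.1 hN
        rw [Subgroup.coe_pow, ← ha] at hNF'
        change ξ (φ (g₀ * ((x ^ N : Δ) : Γ) * g₀⁻¹) - 1) = 0
        rw [Subgroup.coe_pow, ← ha, dead1 a _ hNF'
          (pow_mem (Subgroup.subset_closure (by simp)) N) g₀, sub_self, map_zero])
      ⟨h₀, hh₀Δ⟩ (Subgroup.mem_subgroupOf.2 hh₀)
    exact hξ0 hfin
  have all : ∀ k : ℕ, ∀ h ∈ F, h ∈ Δ → ∀ g, φ (g * h * g⁻¹) - 1 ∈ ZZ S (2 * K - k) := by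
    intro k
    induction k with
    | zero =>
      intro h _ _ g
      exact ZZ_top (fun L hL hLS => hK L hL hLS) _
    | succ k ih =>
      rcases Nat.lt_or_ge k (2 * K) with h | h
      · have e : 2 * K - k = (2 * K - (k + 1)) + 1 := by omega
        rw [e] at ih
        exact step _ ih
      · have e : 2 * K - (k + 1) = 2 * K - k := by omega
        rw [e]; exact ih
  intro h hh hhΔ
  have := ZZ_zero (by simpa using all (2 * K) h hh hhΔ 1)
  exact sub_eq_zero.1 this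

end Helper38.AutF
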