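import Mathlib
import Pool.Agent.Helper38.AutF.GoodPair

/-!
Words in a set `S` of letters, the homomorphism `r ↦ (x_i ↦ x_i r)` and the twisting
automorphisms `x_s ↦ x_s w`.
-/

namespace Helper38.AutF

open Matrix

variable {ι : Type*} [DecidableEq ι]

/-- inclusion of the free group on a set of letters -/
def eS (S : Set ι) : FreeGroup S →* FreeGroup ι := FreeGroup.map Subtype.val

omit [DecidableEq ι] in
theorem eS_of (S : Set ι) (a : S) : eS S (FreeGroup.of a) = FreeGroup.of (a : ι) :=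
  FreeGroup.map.of

omit [DecidableEq ι] in
theorem eS_mem (S : Set ι) (r : FreeGroup S) : eS S r ∈ Sy S := by
  induction r using FreeGroup.induction_on with
  | C1 => rw [map_one]; exact one_mem _
  | of x => rw [eS_of]; exact of_mem_Sy x.2
  | inv_of x hx => rw [map_inv]; exact inv_mem hx
  | mul x y hx hy => rw [map_mul]; exact mul_mem hx hy

omit [DecidableEq ι] in
theorem eS_mem' (S : Set ι) {Y : Set ι} {w : FreeGroup S} (hw : w ∈ Sy {j : S | (j : ι) ∈ Y}) :
    eS S w ∈ Sy Y := by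
  have : Subgroup.map (eS S) (Sy {j : S | (j : ι) ∈ Y}) ≤ Sy Y := by
    unfold Sy
    rw [MonoidHom.map_closure, Subgroup.closure_le]
    rintro _ ⟨_, ⟨j, hj, rfl⟩, rfl⟩
    rw [eS_of]
    exact of_mem_Sy hj
  exact this (Subgroup.mem_map_of_mem _ hw)

omit [DecidableEq ι] in
theorem eS_lift {S Y : Set ι} (hYS : Y ⊆ S) {w : FreeGroup ι} (hw : w ∈ Sy Y) :
    ∃ w' ∈ Sy {j : S | (j : ι) ∈ Y}, eS S w' = w := by
  have : Subgroup.map (eS S) (Sy {j : S | (j : ι) ∈ Y}) = Sy Y := by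
    unfold Sy
    rw [MonoidHom.map_closure]
    congr 1
    ext x
    simp only [Set.mem_image, Set.mem_ofPred_eq, exists_exists_and_eq_and, eS_of]
    constructor
    · rintro ⟨⟨j, hj⟩, hjY, rfl⟩
      exact ⟨j, hjY, rfl⟩
    · rintro ⟨j, hjY, rfl⟩
      exact ⟨⟨j, hYS hjY⟩, hjY, rfl⟩
  rw [← this] at hw
  exact hw

/-- `r ↦ (x_i ↦ x_i r)` -/
def RR (S : Set ι) (i : ι) (hi : i ∉ S) : FreeGroup S →* MulAut (FreeGroup ι) :=
  (T i).comp ((MonoidHom.inr (Sx i) (Sx i)).comp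
    ((eS S).codRestrict (Sx i) (fun r => Sy_le_Sx hi (eS_mem S r))))

theorem RR_apply (S : Set ι) (i : ι) (hi : i ∉ S) (r : FreeGroup S) :
    RR S i hi r = T i (1, ⟨eS S r, Sy_le_Sx hi (eS_mem S r)⟩) := rfl

/-- `x_s ↦ x_s w` on the free group on `α`. -/
def LamR {α : Type*} [DecidableEq α] (t : α) (w : FreeGroup α) : FreeGroup α →* FreeGroup α :=
  FreeGroup.lift (Function.update FreeGroup.of t (FreeGroup.of t * w))

theorem LamR_self {α : Type*} [DecidableEq α] (t : α) (w : FreeGroup α) :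
    LamR t w (FreeGroup.of t) = FreeGroup.of t * w := by simp [LamR]

theorem LamR_ne {α : Type*} [DecidableEq α] {t a : α} (h : a ≠ t) (w : FreeGroup α) :
    LamR t w (FreeGroup.of a) = FreeGroup.of a := by simp [LamR, h]

theorem LamR_mem {α : Type*} [DecidableEq α] (t : α) (w g : FreeGroup α) :
    LamR t w g * g⁻¹ ∈ Subgroup.normalClosure {w} := by
  have h : (QuotientGroup.mk' (Subgroup.normalClosure {w})).comp (LamR t w) =
      QuotientGroup.mk' (Subgroup.normalClosure {w}) := by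
    refine FreeGroup.ext_hom _ _ (fun a => ?_)
    by_cases ha : a = t
    · subst ha
      rw [MonoidHom.comp_apply, LamR_self, map_mul]
      have : QuotientGroup.mk' (Subgroup.normalClosure {w}) w = 1 := by
        rw [QuotientGroup.mk'_apply, QuotientGroup.eq_one_iff]
        exact Subgroup.subset_normalClosure rfl
      rw [this, mul_one]
    · rw [MonoidHom.comp_apply, LamR_ne ha]
  have h2 := DFunLike.congr_fun h g
  rw [MonoidHom.comp_apply] at h2
  rw [← QuotientGroup.eq_one_iff, ← QuotientGroup.mk'_apply, map_mul, map_inv, h2, mul_inv_cancel]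

/-- The twisting automorphism conjugates `RR r` to `RR (Λ r)`. -/
theorem twist (S : Set ι) (i : ι) (hiS : i ∉ S) (s : ι) (hsS : s ∈ S) (his : i ≠ s)
    (w : FreeGroup S) (hws : eS S w ∈ Sx s) (r : FreeGroup S) :
    T s (1, ⟨eS S w, hws⟩) * RR S i hiS r =
      RR S i hiS (LamR (⟨s, hsS⟩ : S) w r) * T s (1, ⟨eS S w, hws⟩) := by
  set M := T s (1, ⟨eS S w, hws⟩) with hMdef
  have hMs : M (FreeGroup.of s) = FreeGroup.of s * eS S w := by rw [hMdef, T_self]; simp
  have hMne : ∀ j, j ≠ s → M (FreeGroup.of j) = FreeGroup.of j := by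
    intro j hj; rw [hMdef, T_ne hj]
  have hMe : ∀ r, M (eS S r) = eS S (LamR (⟨s, hsS⟩ : S) w r) := by
    intro r
    have : (M.toMonoidHom : FreeGroup ι →* FreeGroup ι).comp (eS S) =
        (eS S).comp (LamR (⟨s, hsS⟩ : S) w) := by
      refine FreeGroup.ext_hom _ _ (fun a => ?_)
      rw [MonoidHom.comp_apply, MonoidHom.comp_apply, eS_of]
      change M (FreeGroup.of (a : ι)) = _
      by_cases ha : a = (⟨s, hsS⟩ : S)
      · subst ha
        rw [LamR_self, map_mul, eS_of]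
        exact hMs
      · rw [LamR_ne ha, eS_of]
        exact hMne _ (fun hh => ha (Subtype.ext hh))
    exact DFunLike.congr_fun this r
  rw [RR_apply, RR_apply]
  refine T_conj M (hMne i his) ?_ _ _ (by simp) (by simp [hMe])
  intro j hj
  by_cases hjs : j = s
  · rw [hjs, hMs]
    exact mul_mem (of_mem_Sx his.symm) (Sy_le_Sx hiS (eS_mem S w))
  · rw [hMne j hjs]; exact of_mem_Sx hj

/-- Two right transvections based at different letters, whose words avoid both letters, commute. -/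
theorem T_comm {i s : ι} (his : i ≠ s) (p : Sx i × Sx i)
    (p' : Sx s × Sx s) (h1 : (p.1 : FreeGroup ι) ∈ Sx s) (h2 : (p.2 : FreeGroup ι) ∈ Sx s)
    (h3 : (p'.1 : FreeGroup ι) ∈ Sx i) (h4 : (p'.2 : FreeGroup ι) ∈ Sx i) :
    T s p' * T i p = T i p * T s p' := by
  refine T_conj _ (T_ne his _) ?_ _ _ (T_fix _ _ h1).symm (T_fix _ _ h2).symm
  intro j hj
  by_cases hjs : j = s
  · rw [hjs, T_self]
    exact mul_mem (mul_mem (inv_mem h3) (of_mem_Sx his.symm)) h4
  · rw [T_ne hjs]; exact of_mem_Sx hj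

/-- the subgroup of `FreeGroup S` of words `r` with `x_i ↦ x_i r` in `H` -/
def FF (H : Subgroup (MulAut (FreeGroup ι))) (S : Set ι) (i : ι) (hi : i ∉ S) :
    Subgroup (FreeGroup S) := H.comap (RR S i hi)

theorem FF_normal (H : Subgroup (MulAut (FreeGroup ι))) [hH : H.Normal] (S : Set ι) (i : ι)
    (hi : i ∉ S) : (FF H S i hi).Normal := hH.comap _

theorem FF_index (H : Subgroup (MulAut (FreeGroup ι))) (hH : H.index ≠ 0) (S : Set ι) (i : ι)
    (hi : i ∉ S) : (FF H S i hi).index ≠ 0 := by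
  unfold FF
  rw [Subgroup.index_comap]
  have : H.FiniteIndex := ⟨hH⟩
  have : H.IsFiniteRelIndex (RR S i hi).range := Subgroup.isFiniteRelIndex_of_finiteIndex
  exact Subgroup.relIndex_ne_zero

/-- the rational representation of `FF` induced by `f` -/
noncomputable def psi {m : ℕ} (H : Subgroup (MulAut (FreeGroup ι))) (f : H →* GL (Fin m) ℤ)
    (S : Set ι) (i : ι) (hi : i ∉ S) : FF H S i hi →* GL (Fin m) ℚ :=
  (Matrix.GeneralLinearGroup.map (Int.castRingHom ℚ)).comp
    (f.comp (((RR S i hi).comp (FF H S i hi).subtype).codRestrict H (fun r => r.2)))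

theorem psi_apply {m : ℕ} (H : Subgroup (MulAut (FreeGroup ι))) (f : H →* GL (Fin m) ℤ)
    (S : Set ι) (i : ι) (hi : i ∉ S) (r : FreeGroup S) (hr : r ∈ FF H S i hi) :
    psi H f S i hi ⟨r, hr⟩ =
      Matrix.GeneralLinearGroup.map (Int.castRingHom ℚ) (f ⟨RR S i hi r, hr⟩) := rfl

open scoped Classical in
/-- the same as a total function to matrices -/
noncomputable def phi {m : ℕ} (H : Subgroup (MulAut (FreeGroup ι))) (f : H →* GL (Fin m) ℤ)
    (S : Set ι) (i : ι) (hi : i ∉ S) (r : FreeGroup S) : Matrix (Fin m) (Fin m) ℚ :=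
  if hr : r ∈ FF H S i hi then
    ((psi H f S i hi ⟨r, hr⟩ : GL (Fin m) ℚ) : Matrix (Fin m) (Fin m) ℚ) else 1

theorem phi_apply {m : ℕ} (H : Subgroup (MulAut (FreeGroup ι))) (f : H →* GL (Fin m) ℤ)
    (S : Set ι) (i : ι) (hi : i ∉ S) (r : FreeGroup S) (hr : r ∈ FF H S i hi) :
    phi H f S i hi r = ((psi H f S i hi ⟨r, hr⟩ : GL (Fin m) ℚ) : Matrix (Fin m) (Fin m) ℚ) := by
  unfold phi; rw [dif_pos hr]

theorem phi_mul {m : ℕ} (H : Subgroup (MulAut (FreeGroup ι))) (f : H →* GL (Fin m) ℤ)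
    (S : Set ι) (i : ι) (hi : i ∉ S) : ∀ r ∈ FF H S i hi, ∀ s ∈ FF H S i hi,
      phi H f S i hi (r * s) = phi H f S i hi r * phi H f S i hi s := by
  intro r hr s hs
  rw [phi_apply _ _ _ _ _ _ (mul_mem hr hs), phi_apply _ _ _ _ _ _ hr, phi_apply _ _ _ _ _ _ hs,
    ← Units.val_mul, ← map_mul]
  rfl

theorem phi_one {m : ℕ} (H : Subgroup (MulAut (FreeGroup ι))) (f : H →* GL (Fin m) ℤ)
    (S : Set ι) (i : ι) (hi : i ∉ S) : phi H f S i hi 1 = 1 := by
  rw [phi_apply _ _ _ _ _ _ (one_mem _)]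
  have : (⟨1, one_mem _⟩ : FF H S i hi) = 1 := rfl
  rw [this, map_one, Units.val_one]

theorem map_eq_one_iff_int {m : ℕ} (A : GL (Fin m) ℤ) :
    Matrix.GeneralLinearGroup.map (n := Fin m) (Int.castRingHom ℚ) A = 1 → A = 1 := by
  intro h
  have hinj : Function.Injective (fun A : Matrix (Fin m) (Fin m) ℤ => A.map (Int.castRingHom ℚ)) :=
    Matrix.map_injective (Int.cast_injective)
  apply Units.ext
  apply hinj
  change _ = (1 : Matrix (Fin m) (Fin m) ℤ).map (Int.castRingHom ℚ)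
  rw [Matrix.map_one _ (map_zero _) (map_one _)]
  exact congrArg Units.val h

theorem phi_eq_one {m : ℕ} (H : Subgroup (MulAut (FreeGroup ι))) (f : H →* GL (Fin m) ℤ)
    (S : Set ι) (i : ι) (hi : i ∉ S) (r : FreeGroup S) (hr : r ∈ FF H S i hi)
    (h : phi H f S i hi r = 1) : f ⟨RR S i hi r, hr⟩ = 1 := by
  apply map_eq_one_iff_int
  rw [← psi_apply]
  apply Units.ext
  rw [← phi_apply]
  exact h

theorem phi_of_eq_one {m : ℕ} (H : Subgroup (MulAut (FreeGroup ι))) (f : H →* GL (Fin m) ℤ)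
    (S : Set ι) (i : ι) (hi : i ∉ S) (r : FreeGroup S) (hr : r ∈ FF H S i hi)
    (h : f ⟨RR S i hi r, hr⟩ = 1) : phi H f S i hi r = 1 := by
  rw [phi_apply _ _ _ _ _ _ hr, psi_apply, h, map_one, Units.val_one]

theorem nilp_map {m : ℕ} (A : GL (Fin m) ℤ)
    (h : IsNilpotent ((A : Matrix (Fin m) (Fin m) ℤ) - 1)) :
    IsNilpotent (((Matrix.GeneralLinearGroup.map (n := Fin m) (Int.castRingHom ℚ) A :
      GL (Fin m) ℚ) : Matrix (Fin m) (Fin m) ℚ) - 1) := by
  have h2 := h.map ((Int.castRingHom ℚ).mapMatrix : Matrix (Fin m) (Fin m) ℤ →+* _)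
  rw [map_sub, map_one] at h2
  exact h2

end Helper38.AutF
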