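import Mathlib
import Pool.Agent.Helper38.AutF.Twist
import Pool.Agent.Helper38.AutF.Core2
import Pool.Agent.Helper79.AutF.Unip

/-!
Theorem A: if there are `m` letters `t`, two spare letters `k, l`, and `f` is trivial modulo 3 on the
normal finite-index subgroup `H`, then `f` kills `x_i ↦ x_i w₀`.
-/

namespace Helper38.AutF

open Matrix

theorem thmA {ι : Type*} [DecidableEq ι] (H : Subgroup (MulAut (FreeGroup ι))) [hHn : H.Normal]
    (hH : H.index ≠ 0) {m : ℕ} (f : H →* GL (Fin m) ℤ)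
    (hmod : ∀ h : H, ∃ B : Matrix (Fin m) (Fin m) ℤ,
      (f h : Matrix (Fin m) (Fin m) ℤ) = 1 + (3 : ℤ) • B)
    (Y : Set ι) (i : ι) (hiY : i ∉ Y) {τ : Type*} [Fintype τ] [DecidableEq τ]
    (hτ : m ≤ Fintype.card τ) (t : τ → ι) (htinj : Function.Injective t) (hti : ∀ a, i ≠ t a)
    (htY : ∀ a, t a ∉ Y) (k l : ι) (hki : k ≠ i) (hli : l ≠ i) (hkl : k ≠ l) (hkY : k ∉ Y)
    (hlY : l ∉ Y) (hkt : ∀ a, k ≠ t a) (hlt : ∀ a, l ≠ t a)
    (w₀ : FreeGroup ι) (hw₀ : w₀ ∈ Sy Y)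
    (hM : ∀ a, T (t a) (1, ⟨w₀, Sy_le_Sx (htY a) hw₀⟩) ∈ H)
    (hw : T i (1, ⟨w₀, Sy_le_Sx hiY hw₀⟩) ∈ H) :
    f ⟨_, hw⟩ = 1 := by
  classical
  set S : Set ι := Y ∪ Set.range t with hS
  have hYS : Y ⊆ S := Set.subset_union_left
  have htS : ∀ a, t a ∈ S := fun a => Or.inr ⟨a, rfl⟩
  have hiS : i ∉ S := by
    rintro (h | ⟨a, ha⟩)
    · exact hiY h
    · exact hti a ha.symm
  have hkS : k ∉ S := by
    rintro (h | ⟨a, ha⟩)
    · exact hkY h
    · exact hkt a ha.symm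
  have hlS : l ∉ S := by
    rintro (h | ⟨a, ha⟩)
    · exact hlY h
    · exact hlt a ha.symm
  obtain ⟨w, hwY, rfl⟩ := eS_lift hYS hw₀
  have hFn := FF_normal H S i hiS
  set F := FF H S i hiS with hF
  set R := RR S i hiS with hR
  have hwF : w ∈ F := hw
  -- the twisting automorphisms
  set M : τ → H := fun a => ⟨_, hM a⟩ with hMdef
  have htw : ∀ a r, (M a : MulAut (FreeGroup ι)) * R r =
      R (LamR (⟨t a, htS a⟩ : S) w r) * M a := by
    intro a r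
    exact twist S i hiS (t a) (htS a) (hti a) w _ r
  have hLamF : ∀ (a : S) (g : FreeGroup S), g ∈ F → LamR a w g ∈ F := by
    intro a g hg
    have h1 : LamR a w g * g⁻¹ ∈ F :=
      Subgroup.normalClosure_le_normal (by simpa using hwF) (LamR_mem a w g)
    have : LamR a w g = LamR a w g * g⁻¹ * g := by group
    rw [this]
    exact F.mul_mem h1 hg
  -- unipotency
  have hψu : ∀ u ∈ (psi H f S i hiS).range,
      IsNilpotent ((u : Matrix (Fin m) (Fin m) ℚ) - 1) := by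
    rintro _ ⟨⟨r, hr⟩, rfl⟩
    rw [psi_apply]
    apply nilp_map
    exact unip H hH f hmod hki hli hkl ⟨eS S r, Sy_le_Sx hiS (eS_mem S r)⟩
      (Sy_le_Sx hkS (eS_mem S r)) (Sy_le_Sx hlS (eS_mem S r)) hr
  set b : τ → GL (Fin m) ℚ := fun a => Matrix.GeneralLinearGroup.map (Int.castRingHom ℚ) (f (M a))
    with hb
  have hbu : ∀ a, IsNilpotent ((b a : Matrix (Fin m) (Fin m) ℚ) - 1) := by
    intro a
    apply nilp_map
    exact unip H hH f hmod (hkt a) (hlt a) hkl _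
      (Sy_le_Sx hkY hw₀) (Sy_le_Sx hlY hw₀) (hM a)
  have hbc : ∀ a c, b a * b c = b c * b a := by
    intro a c
    by_cases hac : a = c
    · rw [hac]
    · have h1 : M a * M c = M c * M a := by
        apply Subtype.ext
        exact T_comm (fun h => hac (htinj h).symm) _ _ (by simp)
          (Sy_le_Sx (htY a) hw₀) (by simp) (Sy_le_Sx (htY c) hw₀)
      simp only [hb]
      rw [← map_mul, ← map_mul, ← map_mul, ← map_mul, h1]
  -- conjugation by `b a`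
  have hbψ : ∀ a r (hr : r ∈ F), b a * psi H f S i hiS ⟨r, hr⟩ =
      psi H f S i hiS ⟨LamR (⟨t a, htS a⟩ : S) w r, hLamF _ _ hr⟩ * b a := by
    intro a r hr
    have h1 : M a * (⟨R r, hr⟩ : H) =
        ⟨R (LamR (⟨t a, htS a⟩ : S) w r), hLamF _ _ hr⟩ * M a := Subtype.ext (htw a r)
    rw [psi_apply, psi_apply]
    simp only [hb]
    rw [← map_mul, ← map_mul, ← map_mul, ← map_mul, h1]
  have hn : ∀ a, ∀ u ∈ (psi H f S i hiS).range, b a * u * (b a)⁻¹ ∈ (psi H f S i hiS).range := by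
    rintro a _ ⟨⟨r, hr⟩, rfl⟩
    rw [hbψ a r hr, mul_assoc, mul_inv_cancel, mul_one]
    exact ⟨_, rfl⟩
  have hn' : ∀ a, ∀ u ∈ (psi H f S i hiS).range, (b a)⁻¹ * u * b a ∈ (psi H f S i hiS).range := by
    rintro a _ ⟨⟨r, hr⟩, rfl⟩
    -- use the inverse twist
    have hs : eS S w⁻¹ ∈ Sx (t a) := by
      rw [map_inv]
      exact inv_mem (Sy_le_Sx (htY a) hw₀)
    have h1 := twist S i hiS (t a) (htS a) (hti a) w⁻¹ hs r
    have h2 : T (t a) (1, ⟨eS S w⁻¹, hs⟩) = (M a : MulAut (FreeGroup ι))⁻¹ := by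
      simp only [hMdef]
      rw [← map_inv]
      congr 1
      ext <;> simp
    rw [h2] at h1
    have hmem : LamR (⟨t a, htS a⟩ : S) w⁻¹ r ∈ F := by
      have h3 : LamR (⟨t a, htS a⟩ : S) w⁻¹ r * r⁻¹ ∈ F :=
        Subgroup.normalClosure_le_normal (by simpa using inv_mem hwF) (LamR_mem _ w⁻¹ r)
      have : LamR (⟨t a, htS a⟩ : S) w⁻¹ r = LamR (⟨t a, htS a⟩ : S) w⁻¹ r * r⁻¹ * r := by group
      rw [this]
      exact F.mul_mem h3 hr
    have h4 : (M a)⁻¹ * (⟨R r, hr⟩ : H) =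
        ⟨R (LamR (⟨t a, htS a⟩ : S) w⁻¹ r), hmem⟩ * (M a)⁻¹ := Subtype.ext h1
    have h5 : (b a)⁻¹ * psi H f S i hiS ⟨r, hr⟩ = psi H f S i hiS ⟨_, hmem⟩ * (b a)⁻¹ := by
      rw [psi_apply, psi_apply]
      simp only [hb]
      rw [← map_inv, ← map_inv, ← map_mul, ← map_mul, ← map_mul, ← map_mul, h4]
    rw [h5, mul_assoc, inv_mul_cancel, mul_one]
    exact ⟨_, rfl⟩
  -- the big unipotent group
  set U : Subgroup (GL (Fin m) ℚ) := (psi H f S i hiS).range ⊔ Subgroup.closure (Set.range b)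
    with hU
  have hUu : ∀ u ∈ U, IsNilpotent ((u : Matrix (Fin m) (Fin m) ℚ) - 1) :=
    Pool.Agent.Helper79.AutF.unip_ext _ hψu b hbu hbc hn hn'
  obtain ⟨K, hK⟩ := Pool.Agent.Helper42.AutF.M2 U hUu
  have key := core2 F (FF_index H hH S i hiS) U (phi H f S i hiS)
    (fun r hr => ⟨psi H f S i hiS ⟨r, hr⟩, Subgroup.mem_sup_left ⟨_, rfl⟩, by
      rw [phi_apply _ _ _ _ _ _ hr]⟩)
    (phi_one H f S i hiS) (phi_mul H f S i hiS) K hK hτ w hwF
    (fun a => FreeGroup.of (⟨t a, htS a⟩ : S)) (fun a => LamR (⟨t a, htS a⟩ : S) w)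
    (fun a => LamR_self _ _)
    (fun a c hac => LamR_ne (fun h => hac (htinj (congrArg Subtype.val h))) _)
    (fun a g => LamR_mem _ _ _) b
    (fun a => Subgroup.mem_sup_right (Subgroup.subset_closure ⟨a, rfl⟩)) hbc
    (by
      intro a r hr
      rw [phi_apply _ _ _ _ _ _ hr, phi_apply _ _ _ _ _ _ (hLamF _ _ hr), ← Units.val_mul,
        ← Units.val_mul, hbψ a r hr])
  exact phi_eq_one H f S i hiS w hwF key

end Helper38.AutF
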