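import Mathlib
import Pool.Agent.Helper38.AutF.ThmA
import Pool.Agent.Helper38.AutF.Core3

/-!
Theorem B: if `f` kills all two-letter transvections (and their conjugates), then it kills all
transvections by words in `Y`, provided there are three further letters besides `i` and `Y`.
-/

namespace Helper38.AutF

open Matrix


theorem eS_closure_pair {ι : Type*} {S : Set ι} (s y : S) {r : FreeGroup S}
    (hr : r ∈ Subgroup.closure {FreeGroup.of s, FreeGroup.of y}) :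
    eS S r ∈ Sy {(s : ι), (y : ι)} := by
  have : Subgroup.map (eS S) (Subgroup.closure {FreeGroup.of s, FreeGroup.of y}) ≤
      Sy {(s : ι), (y : ι)} := by
    rw [MonoidHom.map_closure, Subgroup.closure_le]
    rintro _ ⟨z, hz, rfl⟩
    rcases hz with rfl | hz
    · rw [eS_of]; exact of_mem_Sy (by simp)
    · rw [Set.mem_singleton_iff] at hz
      rw [hz, eS_of]; exact of_mem_Sy (by simp)
  exact this (Subgroup.mem_map_of_mem _ hr)

theorem thmB {ι : Type*} [DecidableEq ι] (H : Subgroup (MulAut (FreeGroup ι))) [hHn : H.Normal]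
    (hH : H.index ≠ 0) {m : ℕ} (f : H →* GL (Fin m) ℤ)
    (hmod : ∀ h : H, ∃ B : Matrix (Fin m) (Fin m) ℤ,
      (f h : Matrix (Fin m) (Fin m) ℤ) = 1 + (3 : ℤ) • B)
    (hdead : ∀ (σ : MulAut (FreeGroup ι)) (i s y : ι) (r : Sx i), i ≠ s → i ≠ y →
      (r : FreeGroup ι) ∈ Sy {s, y} → ∀ h : σ * T i (1, r) * σ⁻¹ ∈ H, f ⟨_, h⟩ = 1)
    (Y : Set ι) (i s k l : ι) (hiY : i ∉ Y) (hsY : s ∉ Y) (hkY : k ∉ Y) (hlY : l ∉ Y)
    (his : i ≠ s) (hki : k ≠ i) (hli : l ≠ i) (hks : k ≠ s) (hls : l ≠ s) (hkl : k ≠ l)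
    (w₀ : FreeGroup ι) (hw₀ : w₀ ∈ Sy Y) (hw : T i (1, ⟨w₀, Sy_le_Sx hiY hw₀⟩) ∈ H) :
    f ⟨_, hw⟩ = 1 := by
  classical
  set S : Set ι := insert s Y with hS
  have hYS : Y ⊆ S := Set.subset_insert _ _
  have hsS : s ∈ S := Set.mem_insert _ _
  have hnS : ∀ j, j ≠ s → j ∉ Y → j ∉ S := by
    intro j h1 h2 h3
    rcases h3 with h3 | h3
    · exact h1 h3
    · exact h2 h3
  have hiS : i ∉ S := hnS i his hiY
  have hkS : k ∉ S := hnS k hks hkY
  have hlS : l ∉ S := hnS l hls hlY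
  obtain ⟨w, hwY, rfl⟩ := eS_lift hYS hw₀
  have hFn := FF_normal H S i hiS
  set F := FF H S i hiS with hF
  set R := RR S i hiS with hR
  have hwF : w ∈ F := hw
  have hψu : ∀ u ∈ (psi H f S i hiS).range,
      IsNilpotent ((u : Matrix (Fin m) (Fin m) ℚ) - 1) := by
    rintro _ ⟨⟨r, hr⟩, rfl⟩
    rw [psi_apply]
    apply nilp_map
    exact unip H hH f hmod hki hli hkl ⟨eS S r, Sy_le_Sx hiS (eS_mem S r)⟩
      (Sy_le_Sx hkS (eS_mem S r)) (Sy_le_Sx hlS (eS_mem S r)) hr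
  obtain ⟨K, hK⟩ := Pool.Agent.Helper42.AutF.M2 _ hψu
  set y : Y → FreeGroup S := fun a => FreeGroup.of (⟨a, hYS a.2⟩ : S) with hy
  have hcl : Subgroup.closure (Set.range y) = Sy {j : S | (j : ι) ∈ Y} := by
    unfold Sy
    congr 1
    ext x
    constructor
    · rintro ⟨a, rfl⟩
      exact ⟨⟨a, hYS a.2⟩, a.2, rfl⟩
    · rintro ⟨j, hj, rfl⟩
      exact ⟨⟨j, hj⟩, rfl⟩
  have hLamF : ∀ h ∈ F, ∀ g ∈ F, LamR (⟨s, hsS⟩ : S) h g ∈ F := by
    intro h hh g hg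
    have h1 : LamR (⟨s, hsS⟩ : S) h g * g⁻¹ ∈ F :=
      Subgroup.normalClosure_le_normal (by simpa using hh) (LamR_mem _ h g)
    have : LamR (⟨s, hsS⟩ : S) h g = LamR (⟨s, hsS⟩ : S) h g * g⁻¹ * g := by group
    rw [this]
    exact F.mul_mem h1 hg
  have key := core3 F (FF_index H hH S i hiS) (phi H f S i hiS) (phi_one H f S i hiS)
    (phi_mul H f S i hiS) K
    (by
      intro L hL hLS
      refine hK L hL (fun A hA => ?_)
      obtain ⟨r, hr, hAr⟩ := hLS A hA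
      exact ⟨psi H f S i hiS ⟨r, hr⟩, ⟨⟨r, hr⟩, rfl⟩, by
        rw [hAr, phi_apply _ _ _ _ _ _ hr]⟩)
    y (FreeGroup.of (⟨s, hsS⟩ : S)) (fun h => LamR (⟨s, hsS⟩ : S) h)
    (fun h _ _ => LamR_self _ _)
    (fun h _ _ a => LamR_ne (fun hh => hsY (by
      have := congrArg Subtype.val hh
      simp only at this
      rw [← this]
      exact a.2)) _)
    (fun h _ _ g => LamR_mem _ _ _)
    (by
      intro a r hr hr2 g
      have hmem : g * r * g⁻¹ ∈ F := hFn.conj_mem r hr g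
      apply phi_of_eq_one H f S i hiS _ hmem
      have h1 := eS_closure_pair (⟨s, hsS⟩ : S) (⟨a, hYS a.2⟩ : S) hr2
      have h2 : R g * T i (1, ⟨eS S r, Sy_le_Sx hiS (eS_mem S r)⟩) * (R g)⁻¹ ∈ H := by
        rw [← RR_apply S i hiS, ← map_inv, ← map_mul, ← map_mul]
        exact hmem
      have h3 := hdead (R g) i s a ⟨eS S r, Sy_le_Sx hiS (eS_mem S r)⟩ his
        (fun hh => hiY (hh ▸ a.2)) h1 h2
      have h4 : (⟨RR S i hiS (g * r * g⁻¹), hmem⟩ : H) = ⟨_, h2⟩ := by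
        apply Subtype.ext
        change RR S i hiS (g * r * g⁻¹) = _
        rw [map_mul, map_mul, map_inv]
        rfl
      rw [h4]
      exact h3)
    (by
      intro h hh hhΔ a r hr hr2 g
      rw [hcl] at hhΔ
      have hmem : g * LamR (⟨s, hsS⟩ : S) h r * g⁻¹ ∈ F := hFn.conj_mem _ (hLamF h hh r hr) g
      apply phi_of_eq_one H f S i hiS _ hmem
      have h1 := eS_closure_pair (⟨s, hsS⟩ : S) (⟨a, hYS a.2⟩ : S) hr2
      have hhs : eS S h ∈ Sx s := Sy_le_Sx hsY (eS_mem' S hhΔ)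
      set M := T s (1, ⟨eS S h, hhs⟩) with hM
      have htw : M * R r = R (LamR (⟨s, hsS⟩ : S) h r) * M := twist S i hiS s hsS his h hhs r
      have h5 : R (g * LamR (⟨s, hsS⟩ : S) h r * g⁻¹) =
          (R g * M) * T i (1, ⟨eS S r, Sy_le_Sx hiS (eS_mem S r)⟩) * (R g * M)⁻¹ := by
        rw [← RR_apply S i hiS, map_mul, map_mul, map_inv]
        have : R (LamR (⟨s, hsS⟩ : S) h r) = M * R r * M⁻¹ := by rw [htw]; group
        rw [this, ← hR]
        group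
      have h2 : (R g * M) * T i (1, ⟨eS S r, Sy_le_Sx hiS (eS_mem S r)⟩) * (R g * M)⁻¹ ∈ H := by
        rw [← h5]
        exact hmem
      have h3 := hdead (R g * M) i s a ⟨eS S r, Sy_le_Sx hiS (eS_mem S r)⟩ his
        (fun hh => hiY (hh ▸ a.2)) h1 h2
      have h4 : (⟨RR S i hiS (g * LamR (⟨s, hsS⟩ : S) h r * g⁻¹), hmem⟩ : H) = ⟨_, h2⟩ :=
        Subtype.ext h5
      rw [h4]
      exact h3)
    w hwF (by rw [hcl]; exact hwY)
  exact phi_eq_one H f S i hiS w hwF key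

end Helper38.AutF
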