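import Mathlib
import Pool.Agent.Helper38.AutF.ThmB
import Pool.Agent.Helper38.AutF.Main

/-!
Final assembly.
-/

namespace Helper38.AutF

open Matrix

section Conj

variable {n m : ℕ}

/-- conjugated representation -/
noncomputable def cj (H : Subgroup (MulAut (FreeGroup (Fin n)))) [H.Normal]
    (f : H →* GL (Fin m) ℤ) (σ : MulAut (FreeGroup (Fin n))) : H →* GL (Fin m) ℤ :=
  f.comp (MulAut.conjNormal σ : H ≃* H).toMonoidHom

theorem cj_apply (H : Subgroup (MulAut (FreeGroup (Fin n)))) [hH : H.Normal]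
    (f : H →* GL (Fin m) ℤ) (σ : MulAut (FreeGroup (Fin n))) (h : H) :
    cj H f σ h = f ⟨σ * h * σ⁻¹, hH.conj_mem _ h.2 σ⟩ := by
  unfold cj
  rw [MonoidHom.comp_apply]
  congr 1

theorem torsion_free (H : Subgroup (MulAut (FreeGroup (Fin n))))
    (f : H →* GL (Fin m) ℤ)
    (hmod : ∀ h : H, ∃ B : Matrix (Fin m) (Fin m) ℤ,
      (f h : Matrix (Fin m) (Fin m) ℤ) = 1 + (3 : ℤ) • B) (h : H) (k : ℕ) (hk : 0 < k)
    (hf : f (h ^ k) = 1) : f h = 1 := by
  obtain ⟨B, hB⟩ := hmod h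
  rw [map_pow] at hf
  apply Units.ext
  refine Pool.Agent.Helper68.AutF.M6' _ B hB k hk ?_
  rw [← Units.val_pow_eq_pow_val, hf, Units.val_one]

end Conj

/-- two letters, normal subgroup, trivial mod 3 -/
theorem few_letters {n m : ℕ} (H : Subgroup (MulAut (FreeGroup (Fin n)))) [hHn : H.Normal]
    (hH : H.index ≠ 0) (f : H →* GL (Fin m) ℤ)
    (hmod : ∀ h : H, ∃ B : Matrix (Fin m) (Fin m) ℤ,
      (f h : Matrix (Fin m) (Fin m) ℤ) = 1 + (3 : ℤ) • B)
    (Y : Finset (Fin n)) (hcard : Y.card + m + 3 ≤ n) (i : Fin n) (hiY : i ∉ Y) (w₀ : Sx i)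
    (hw₀ : (w₀ : FreeGroup (Fin n)) ∈ Sy (Y : Set (Fin n))) (h : T i (1, w₀) ∈ H) :
    f ⟨_, h⟩ = 1 := by
  classical
  have : H.FiniteIndex := ⟨hH⟩
  have hpow : ∀ g : MulAut (FreeGroup (Fin n)), g ^ H.index ∈ H := fun g =>
    Subgroup.pow_index_mem H g
  set N := H.index with hN
  have hiY' : i ∉ (Y : Set (Fin n)) := by simpa using hiY
  -- choose letters
  obtain ⟨t⟩ : Nonempty (Fin m ⊕ Bool ↪ {j : Fin n // j ∉ insert i Y}) := by
    refine Function.Embedding.nonempty_of_card_le ?_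
    rw [Fintype.card_sum, Fintype.card_fin, Fintype.card_bool, Fintype.card_subtype_compl,
      Fintype.card_fin]
    have : Fintype.card {x // x ∈ insert i Y} = Y.card + 1 := by
      rw [Fintype.card_coe, Finset.card_insert_of_notMem hiY]
    rw [this]
    omega
  have htY : ∀ a, (t a : Fin n) ∉ (Y : Set (Fin n)) := fun a h =>
    (t a).2 (Finset.mem_insert_of_mem (by simpa using h))
  have hti : ∀ a, i ≠ (t a : Fin n) := fun a h => (t a).2 (h ▸ Finset.mem_insert_self _ _)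
  have htinj : ∀ a b, a ≠ b → (t a : Fin n) ≠ t b := fun a b hab h =>
    hab (t.injective (Subtype.ext h))
  have hw₀N : (w₀ : FreeGroup (Fin n)) ^ N ∈ Sy (Y : Set (Fin n)) := pow_mem hw₀ N
  have hTpow : ∀ (j : Fin n) (hj : j ∉ (Y : Set (Fin n))),
      T j (1, ⟨(w₀ : FreeGroup (Fin n)) ^ N, Sy_le_Sx hj hw₀N⟩) ∈ H := by
    intro j hj
    have h1 := hpow (T j (1, ⟨w₀, Sy_le_Sx hj hw₀⟩))
    rw [← map_pow] at h1
    convert h1 using 2
    ext <;> simp
  have key := thmA H hH f hmod (Y : Set (Fin n)) i hiY' (τ := Fin m) (by simp)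
    (fun a => (t (Sum.inl a) : Fin n))
    (fun a b hab => Sum.inl_injective (t.injective (Subtype.ext hab)))
    (fun a => hti _) (fun a => htY _) (t (Sum.inr false)) (t (Sum.inr true)) (hti _).symm
    (hti _).symm (htinj _ _ (by simp)) (htY _) (htY _) (fun a => htinj _ _ (by simp))
    (fun a => htinj _ _ (by simp)) _ hw₀N (fun a => hTpow _ (htY _)) (hTpow i hiY')
  refine torsion_free H f hmod _ N (Nat.pos_of_ne_zero hH) ?_
  rw [← key]
  congr 1
  apply Subtype.ext
  change T i (1, w₀) ^ N = _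
  rw [← map_pow]
  congr 1
  ext <;> simp

/-- **Normal version of the main theorem.** -/
theorem normal_version {n m : ℕ} (hnm : m + 5 ≤ n)
    (H : Subgroup (MulAut (FreeGroup (Fin n)))) [hHn : H.Normal]
    (hH : H.index ≠ 0) (f : H →* GL (Fin m) ℤ)
    (hmod : ∀ h : H, ∃ B : Matrix (Fin m) (Fin m) ℤ,
      (f h : Matrix (Fin m) (Fin m) ℤ) = 1 + (3 : ℤ) • B)
    (Y : Finset (Fin n)) (hcard : Y.card + 4 ≤ n) (i : Fin n) (hiY : i ∉ Y) (w₀ : Sx i)
    (hw₀ : (w₀ : FreeGroup (Fin n)) ∈ Sy (Y : Set (Fin n))) (h : T i (1, w₀) ∈ H) :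
    f ⟨_, h⟩ = 1 := by
  classical
  have hiY' : i ∉ (Y : Set (Fin n)) := by simpa using hiY
  obtain ⟨t⟩ : Nonempty (Fin 3 ↪ {j : Fin n // j ∉ insert i Y}) := by
    refine Function.Embedding.nonempty_of_card_le ?_
    rw [Fintype.card_fin, Fintype.card_subtype_compl, Fintype.card_fin]
    have : Fintype.card {x // x ∈ insert i Y} = Y.card + 1 := by
      rw [Fintype.card_coe, Finset.card_insert_of_notMem hiY]
    rw [this]
    omega
  have htY : ∀ a, (t a : Fin n) ∉ (Y : Set (Fin n)) := fun a h =>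
    (t a).2 (Finset.mem_insert_of_mem (by simpa using h))
  have hti : ∀ a, i ≠ (t a : Fin n) := fun a h => (t a).2 (h ▸ Finset.mem_insert_self _ _)
  have htinj : ∀ a b, a ≠ b → (t a : Fin n) ≠ t b := fun a b hab h =>
    hab (t.injective (Subtype.ext h))
  refine thmB H hH f hmod ?_ (Y : Set (Fin n)) i (t 0) (t 1) (t 2) hiY' (htY _) (htY _) (htY _)
    (hti _) (hti _).symm (hti _).symm (htinj _ _ (by decide)) (htinj _ _ (by decide))
    (htinj _ _ (by decide)) w₀ hw₀ h
  intro σ i s y r his hiy hr hmem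
  have hT : T i (1, r) ∈ H := by
    have := hHn.conj_mem _ hmem σ⁻¹
    simpa [mul_assoc] using this
  have h1 := few_letters H hH (cj H f σ) (by
      intro x
      rw [cj_apply]
      exact hmod _) {s, y} (by
      have : ({s, y} : Finset (Fin n)).card ≤ 2 := Finset.card_le_two
      omega) i (by simp [his, hiy]) r (by simpa using hr) hT
  rw [cj_apply] at h1
  exact h1

end Helper38.AutF
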