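import Mathlib
import Pool.Agent.Helper38.AutF.Final2

/-!
The final theorem, for arbitrary finite-index subgroups and with a uniform exponent.
-/

namespace Helper38.AutF

open Matrix

/-- the inversion of `x_i` -/
def epsHom {n : ℕ} (i : Fin n) : FreeGroup (Fin n) →* FreeGroup (Fin n) :=
  FreeGroup.lift (Function.update FreeGroup.of i (FreeGroup.of i)⁻¹)

theorem epsHom_self {n : ℕ} (i : Fin n) :
    epsHom i (FreeGroup.of i) = (FreeGroup.of i)⁻¹ := by simp [epsHom]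

theorem epsHom_ne {n : ℕ} {i j : Fin n} (h : j ≠ i) :
    epsHom i (FreeGroup.of j) = FreeGroup.of j := by simp [epsHom, h]

theorem epsHom_comp {n : ℕ} (i : Fin n) : (epsHom i).comp (epsHom i) = MonoidHom.id _ := by
  refine FreeGroup.ext_hom _ _ (fun j => ?_)
  by_cases hj : j = i
  · subst hj
    simp [epsHom_self]
  · simp [epsHom_ne hj]

/-- the inversion of `x_i` as an automorphism -/
def eps {n : ℕ} (i : Fin n) : MulAut (FreeGroup (Fin n)) :=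
  MonoidHom.toMulEquiv (epsHom i) (epsHom i) (epsHom_comp i) (epsHom_comp i)

theorem eps_apply {n : ℕ} (i : Fin n) (x : FreeGroup (Fin n)) : eps i x = epsHom i x := rfl

theorem eps_fix {n : ℕ} (i : Fin n) {w : FreeGroup (Fin n)} (hw : w ∈ Sx i) : eps i w = w := by
  refine hom_eq_on_Sy (eps i).toMonoidHom (MonoidHom.id _) (fun j hj => ?_) hw
  exact epsHom_ne (by simpa using hj)

theorem eps_conj {n : ℕ} (i : Fin n) (u : Sx i) :
    eps i * T i (1, u) * (eps i)⁻¹ = T i (u, 1) := by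
  rw [mul_inv_eq_iff_eq_mul]
  refine aut_ext (fun j => ?_)
  rw [MulAut.mul_apply, MulAut.mul_apply]
  by_cases hj : j = i
  · subst hj
    rw [T_self, eps_apply j (FreeGroup.of j), epsHom_self, map_inv, T_self]
    simp only [map_mul, OneMemClass.coe_one, inv_one, one_mul, mul_one,
      _root_.mul_inv_rev, inv_inv]
    rw [eps_fix j u.2, eps_apply, epsHom_self]
  · rw [T_ne hj, eps_apply, epsHom_ne hj, T_ne hj]

/-- The range of `Y` covered by the theorem. -/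
def Small (n m : ℕ) (Y : Finset (Fin n)) : Prop :=
  Y.card + m + 3 ≤ n ∨ (m + 5 ≤ n ∧ Y.card + 4 ≤ n)

theorem normal_small {n m : ℕ}
    (H : Subgroup (MulAut (FreeGroup (Fin n)))) [hHn : H.Normal]
    (hH : H.index ≠ 0) (f : H →* GL (Fin m) ℤ)
    (hmod : ∀ h : H, ∃ B : Matrix (Fin m) (Fin m) ℤ,
      (f h : Matrix (Fin m) (Fin m) ℤ) = 1 + (3 : ℤ) • B)
    (Y : Finset (Fin n)) (hY : Small n m Y) (i : Fin n) (hiY : i ∉ Y) (w₀ : Sx i)
    (hw₀ : (w₀ : FreeGroup (Fin n)) ∈ Sy (Y : Set (Fin n))) (h : T i (1, w₀) ∈ H) :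
    f ⟨_, h⟩ = 1 := by
  rcases hY with hY | ⟨hY1, hY2⟩
  · exact few_letters H hH f hmod Y hY i hiY w₀ hw₀ h
  · exact normal_version hY1 H hH f hmod Y hY2 i hiY w₀ hw₀ h

/-- conjugates -/
theorem normal_small_conj {n m : ℕ}
    (H : Subgroup (MulAut (FreeGroup (Fin n)))) [hHn : H.Normal]
    (hH : H.index ≠ 0) (f : H →* GL (Fin m) ℤ)
    (hmod : ∀ h : H, ∃ B : Matrix (Fin m) (Fin m) ℤ,
      (f h : Matrix (Fin m) (Fin m) ℤ) = 1 + (3 : ℤ) • B)
    (Y : Finset (Fin n)) (hY : Small n m Y) (i : Fin n) (hiY : i ∉ Y) (w₀ : Sx i)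
    (hw₀ : (w₀ : FreeGroup (Fin n)) ∈ Sy (Y : Set (Fin n))) (h : T i (1, w₀) ∈ H)
    (σ : MulAut (FreeGroup (Fin n))) (h' : σ * T i (1, w₀) * σ⁻¹ ∈ H) :
    f ⟨_, h'⟩ = 1 := by
  have h1 := normal_small H hH (cj H f σ) (by
      intro x
      rw [cj_apply]
      exact hmod _) Y hY i hiY w₀ hw₀ h
  rw [cj_apply] at h1
  exact h1

theorem main {n m : ℕ} (H : Subgroup (MulAut (FreeGroup (Fin n)))) (hH : H.index ≠ 0)
    (f : H →* GL (Fin m) ℤ) :
    ∃ N : ℕ, 0 < N ∧ ∀ Y : Finset (Fin n), Small n m Y →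
      (∀ (g τ : MulAut (FreeGroup (Fin n))) (i : Fin n), i ∉ Y →
        (∀ j, j ≠ i → τ (FreeGroup.of j) = FreeGroup.of j) →
        (∃ u ∈ Sy (Y : Set (Fin n)), ∃ v ∈ Sy (Y : Set (Fin n)),
          τ (FreeGroup.of i) = u * FreeGroup.of i * v) →
        ∃ h : (g * τ * g⁻¹) ^ N ∈ H, f ⟨_, h⟩ = 1) ∧
      (∀ (g : MulAut (FreeGroup (Fin n))), ∀ w ∈ Sy (Y : Set (Fin n)),
        ∃ h : MulAut.conj (g w) ^ N ∈ H, f ⟨_, h⟩ = 1) := by
  classical
  have : H.FiniteIndex := ⟨hH⟩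
  set K : Subgroup H := ((red m).comp f).ker with hK
  have hKfi : K.FiniteIndex := by
    rw [hK]
    infer_instance
  set H₁ : Subgroup (MulAut (FreeGroup (Fin n))) := K.map H.subtype with hH₁
  have hH₁i : H₁.index ≠ 0 := by
    rw [hH₁, Subgroup.index_map_subtype]
    exact mul_ne_zero hKfi.index_ne_zero hH
  have : H₁.FiniteIndex := ⟨hH₁i⟩
  set H₂ := H₁.normalCore with hH₂
  have hH₂i : H₂.index ≠ 0 := Subgroup.FiniteIndex.index_ne_zero
  have hle : H₂ ≤ H := (Subgroup.normalCore_le H₁).trans (Subgroup.map_subtype_le K)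
  set f₂ : H₂ →* GL (Fin m) ℤ := f.comp (Subgroup.inclusion hle) with hf₂
  have hmod : ∀ h : H₂, ∃ B : Matrix (Fin m) (Fin m) ℤ,
      (f₂ h : Matrix (Fin m) (Fin m) ℤ) = 1 + (3 : ℤ) • B := by
    intro x
    refine red_eq_one _ ?_
    obtain ⟨y, hy, hyx⟩ := Subgroup.mem_map.1 (Subgroup.normalCore_le H₁ x.2)
    have : Subgroup.inclusion hle x = y := Subtype.ext hyx.symm
    rw [hf₂, MonoidHom.comp_apply, this]
    exact hy
  have hpow : ∀ g : MulAut (FreeGroup (Fin n)), g ^ H₂.index ∈ H₂ := fun g =>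
    Subgroup.pow_index_mem H₂ g
  set N := H₂.index with hN
  refine ⟨N, Nat.pos_of_ne_zero hH₂i, fun Y hY => ?_⟩
  -- the basic fact: conjugates of right transvections by `N`-th powers
  have basic : ∀ (σ : MulAut (FreeGroup (Fin n))) (i : Fin n) (_ : i ∉ Y) (v : Sx i),
      (v : FreeGroup (Fin n)) ∈ Sy (Y : Set (Fin n)) →
      ∃ h : σ * T i (1, v) ^ N * σ⁻¹ ∈ H₂, f₂ ⟨_, h⟩ = 1 := by
    intro σ i hiY v hv
    have h1 : T i (1, v ^ N) ∈ H₂ := by
      have := hpow (T i (1, v))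
      rw [← map_pow] at this
      convert this using 2
      ext <;> simp
    have h2 : T i (1, v) ^ N = T i (1, v ^ N) := by
      rw [← map_pow]
      congr 1
      ext <;> simp
    have h3 : σ * T i (1, v ^ N) * σ⁻¹ ∈ H₂ := (Subgroup.normalCore_normal H₁).conj_mem _ h1 σ
    have h4 := normal_small_conj H₂ hH₂i f₂ hmod Y hY i hiY (v ^ N)
      (by rw [Subgroup.coe_pow]; exact pow_mem hv N) h1 σ h3
    rw [h2]
    exact ⟨h3, h4⟩
  constructor
  · rintro g τ i hiY hτ ⟨u, hu, v, hv, hτi⟩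
    have hiY' : i ∉ (Y : Set (Fin n)) := by simpa using hiY
    have hu' : u⁻¹ ∈ Sx i := inv_mem (Sy_le_Sx hiY' hu)
    have hv' : v ∈ Sx i := Sy_le_Sx hiY' hv
    have e1 : τ = T i (⟨u⁻¹, hu'⟩, ⟨v, hv'⟩) := by
      refine aut_ext (fun j => ?_)
      by_cases hj : j = i
      · subst hj
        rw [hτi, T_self]; simp
      · rw [hτ j hj, T_ne hj]
    have e2 : T i (⟨u⁻¹, hu'⟩, ⟨v, hv'⟩) = T i (⟨u⁻¹, hu'⟩, 1) * T i (1, ⟨v, hv'⟩) := by
      rw [← map_mul]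
      congr 1
      ext <;> simp
    have e3 : Commute (T i (⟨u⁻¹, hu'⟩, 1)) (T i (1, ⟨v, hv'⟩)) := by
      change _ * _ = _ * _
      rw [← map_mul, ← map_mul]
      congr 1
      ext <;> simp
    have e4 : (g * τ * g⁻¹) ^ N = ((g * eps i) * T i (1, ⟨u⁻¹, hu'⟩) ^ N * (g * eps i)⁻¹) *
        (g * T i (1, ⟨v, hv'⟩) ^ N * g⁻¹) := by
      have e5 : (g * τ * g⁻¹) ^ N = g * τ ^ N * g⁻¹ := conj_pow
      rw [e5, e1, e2, e3.mul_pow, ← eps_conj, conj_pow]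
      group
    obtain ⟨h1, h1'⟩ := basic (g * eps i) i hiY ⟨u⁻¹, hu'⟩ (inv_mem hu)
    obtain ⟨h2, h2'⟩ := basic g i hiY ⟨v, hv'⟩ hv
    have h3 : (g * τ * g⁻¹) ^ N ∈ H₂ := by
      rw [e4]; exact H₂.mul_mem h1 h2
    refine ⟨hle h3, ?_⟩
    have h4 : f₂ ⟨_, h3⟩ = 1 := by
      have : (⟨_, h3⟩ : H₂) = ⟨_, h1⟩ * ⟨_, h2⟩ := Subtype.ext e4
      rw [this, map_mul, h1', h2', one_mul]
    exact h4
  · intro g w hw
    -- a letter outside `Y`
    obtain ⟨k, hk⟩ : ∃ k : Fin n, k ∉ Y := by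
      by_contra hno
      push Not at hno
      have h1 : Y = Finset.univ := Finset.eq_univ_iff_forall.2 hno
      have h2 : Y.card = n := by rw [h1]; simp
      rcases hY with hY | ⟨_, hY⟩ <;> omega
    have hkY : k ∉ (Y : Set (Fin n)) := by simpa using hk
    have hwk : w ∈ Sx k := Sy_le_Sx hkY hw
    have hwN : w ^ N ∈ Sx k := pow_mem hwk N
    -- `conj w ^ N = conj (x_k)⁻¹ T conj(x_k) T⁻¹`
    set T₀ := T k (1, ⟨w, hwk⟩) ^ N with hT₀
    have hT₀' : T₀ = T k (1, ⟨w ^ N, hwN⟩) := by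
      rw [hT₀, ← map_pow]
      congr 1
      ext <;> simp
    have c1 : ∀ (σ : MulAut (FreeGroup (Fin n))) (x : FreeGroup (Fin n)),
        σ * MulAut.conj x * σ⁻¹ = MulAut.conj (σ x) := by
      intro σ x
      ext y
      simp [MulAut.mul_apply]
    have c2 : T₀ * MulAut.conj (FreeGroup.of k) * T₀⁻¹ =
        MulAut.conj (FreeGroup.of k) * MulAut.conj (w ^ N) := by
      rw [c1, hT₀', T_self, ← map_mul]
      simp
    have c3 : MulAut.conj (w ^ N) = ((MulAut.conj (FreeGroup.of k))⁻¹ * T₀ *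
        ((MulAut.conj (FreeGroup.of k))⁻¹)⁻¹) * T₀⁻¹ := by
      have : MulAut.conj (w ^ N) = (MulAut.conj (FreeGroup.of k))⁻¹ *
          (MulAut.conj (FreeGroup.of k) * MulAut.conj (w ^ N)) := by group
      rw [this, ← c2]
      group
    have c4 : MulAut.conj (g w) ^ N = ((g * (MulAut.conj (FreeGroup.of k))⁻¹) * T₀ *
        (g * (MulAut.conj (FreeGroup.of k))⁻¹)⁻¹) * (g * T₀ * g⁻¹)⁻¹ := by
      rw [← c1, conj_pow, ← map_pow, c3]
      group
    obtain ⟨h1, h1'⟩ := basic (g * (MulAut.conj (FreeGroup.of k))⁻¹) k hk ⟨w, hwk⟩ hw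
    obtain ⟨h2, h2'⟩ := basic g k hk ⟨w, hwk⟩ hw
    have h3 : MulAut.conj (g w) ^ N ∈ H₂ := by
      rw [c4]; exact H₂.mul_mem h1 (H₂.inv_mem h2)
    refine ⟨hle h3, ?_⟩
    have h4 : f₂ ⟨_, h3⟩ = 1 := by
      have : (⟨_, h3⟩ : H₂) = ⟨_, h1⟩ * ⟨_, h2⟩⁻¹ := Subtype.ext c4
      rw [this, map_mul, map_inv, h1', h2', one_mul, inv_one]
    exact h4

end Helper38.AutF
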